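import Mathlib

set_option autoImplicit false

/-!
# The entropy step, in terms of sizes of fibres
-/

namespace Q85.ZE

open Finset

open scoped Classical in
/-- image of a finite set -/
noncomputable def img {ι α : Type*} (F : Finset ι) (f : ι → α) : Finset α := F.image f

open scoped Classical in
/-- fibre of a map on a finite set -/
noncomputable def fib {ι α : Type*} (F : Finset ι) (f : ι → α) (a : α) : Finset ι :=
  F.filter fun x => f x = a

/-- the number of elements of `F` with the same value of `f` as `x` -/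
noncomputable def cnt {ι α : Type*} (F : Finset ι) (f : ι → α) (x : ι) : ℕ :=
  (fib F f (f x)).card

theorem mem_img {ι α : Type*} {F : Finset ι} {f : ι → α} {a : α} :
    a ∈ img F f ↔ ∃ x ∈ F, f x = a := by
  simp [img]

theorem mem_fib {ι α : Type*} {F : Finset ι} {f : ι → α} {a : α} {x : ι} :
    x ∈ fib F f a ↔ x ∈ F ∧ f x = a := by
  simp [fib]

theorem cnt_pos {ι α : Type*} {F : Finset ι} (f : ι → α) {x : ι} (hx : x ∈ F) :
    0 < cnt F f x := by
  unfold cnt
  rw [Finset.card_pos]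
  exact ⟨x, by rw [mem_fib]; exact ⟨hx, rfl⟩⟩

/-- splitting a sum into the fibres of `f` -/
theorem sum_fib {ι α : Type*} (F : Finset ι) (f : ι → α) (h : ι → ℝ) :
    ∑ x ∈ F, h x = ∑ a ∈ img F f, ∑ x ∈ fib F f a, h x := by
  classical
  exact (Finset.sum_fiberwise_of_maps_to (s := F) (t := img F f) (g := f)
    (fun x hx => mem_img.2 ⟨x, hx, rfl⟩) h).symm.trans
    (Finset.sum_congr rfl fun a _ => Finset.sum_congr (by ext x; simp [fib]) fun _ _ => rfl)

theorem sum_div_cnt {ι α : Type*} (F : Finset ι) (f : ι → α) (g : α → ℝ) :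
    ∑ x ∈ F, g (f x) / cnt F f x = ∑ a ∈ img F f, g a := by
  rw [sum_fib F f]
  refine Finset.sum_congr rfl fun a ha => ?_
  have h1 : ∀ x ∈ fib F f a, g (f x) / cnt F f x = g a / ((fib F f a).card : ℝ) := by
    intro x hx
    rw [mem_fib] at hx
    unfold cnt
    rw [hx.2]
  rw [Finset.sum_congr rfl h1, Finset.sum_const, nsmul_eq_mul]
  obtain ⟨x, hx, rfl⟩ := mem_img.1 ha
  have h2 : ((fib F f (f x)).card : ℝ) ≠ 0 := by
    have := cnt_pos f hx
    unfold cnt at this
    exact_mod_cast this.ne'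
  field_simp

theorem sum_one_div_cnt {ι α : Type*} (F : Finset ι) (f : ι → α) :
    ∑ x ∈ F, 1 / (cnt F f x : ℝ) = (img F f).card := by
  have := sum_div_cnt F f (fun _ => (1:ℝ))
  rw [this]
  simp

/-- the logarithmic form of Jensen's inequality which is used -/
theorem sum_log_le {ι : Type*} (F : Finset ι) (u : ι → ℝ) (h0 : ∀ x ∈ F, 0 < u x)
    (h1 : ∑ x ∈ F, u x ≤ F.card) : ∑ x ∈ F, Real.log (u x) ≤ 0 := by
  have h2 : ∑ x ∈ F, Real.log (u x) ≤ ∑ x ∈ F, (u x - 1) :=
    Finset.sum_le_sum fun x hx => Real.log_le_sub_one_of_pos (h0 x hx)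
  rw [Finset.sum_sub_distrib] at h2
  simp only [Finset.sum_const, nsmul_eq_mul, mul_one] at h2
  linarith

theorem sum_card_fib {ι α : Type*} (F : Finset ι) (f : ι → α) :
    ∑ a ∈ img F f, ((fib F f a).card : ℝ) = F.card := by
  have := sum_fib F f (fun _ => (1:ℝ))
  simp only [Finset.sum_const, nsmul_eq_mul, mul_one] at this
  exact this.symm

theorem step_one {ι τ ρ : Type*} (F : Finset ι) (T : ι → τ) (R : ι → ρ) (w : τ → ℝ)
    (w' : τ → ρ → ℝ) (hw : ∀ x ∈ F, 0 < w (T x))
    (hle : ∀ x ∈ F, ∑ r ∈ img (fib F T (T x)) R, w' (T x) r ≤ w (T x)) :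
    ∑ x ∈ F, w' (T x) (R x) * cnt F T x / (w (T x) * cnt F (fun y => (T y, R y)) x) ≤ F.card := by
  rw [sum_fib F T, ← sum_card_fib F T]
  refine Finset.sum_le_sum fun t ht => ?_
  obtain ⟨x₀, hx₀, rfl⟩ := mem_img.1 ht
  set G := fib F T (T x₀) with hG
  have h1 : ∀ x ∈ G, w' (T x) (R x) * cnt F T x / (w (T x) * cnt F (fun y => (T y, R y)) x)
      = (G.card : ℝ) / w (T x₀) * (w' (T x₀) (R x) / cnt G R x) := by
    intro x hx
    have hxG := hx
    rw [hG, mem_fib] at hx
    have e1 : cnt F T x = G.card := by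
      unfold cnt
      rw [hx.2]
    have e2 : cnt F (fun y => (T y, R y)) x = cnt G R x := by
      unfold cnt
      congr 1
      ext y
      simp only [mem_fib, Prod.mk.injEq, hG, hx.2]
      tauto
    rw [e1, e2, hx.2]
    have : 0 < w (T x₀) := hw x₀ hx₀
    have h3 : (0:ℝ) < cnt G R x := by
      exact_mod_cast cnt_pos R hxG
    field_simp
  rw [Finset.sum_congr rfl h1, ← Finset.mul_sum, sum_div_cnt G R (fun r => w' (T x₀) r)]
  have h2 := hle x₀ hx₀
  have h3 := hw x₀ hx₀
  rw [div_mul_eq_mul_div, div_le_iff₀ h3]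
  exact mul_le_mul_of_nonneg_left h2 (by positivity)

theorem step_two {ι κ σ υ : Type*} (F : Finset ι) (T : ι → κ) (S : ι → σ) (Y : ι → υ) (K : ℕ)
    (hT : ∀ x ∈ F, ∀ y ∈ F, Y x = Y y → T x = T y) (hS : ∀ x ∈ F, ∀ y ∈ F, Y x = Y y → S x = S y)
    (hK : ∀ x ∈ F, (img (fib F (fun y => (T y, S y)) (T x, S x)) Y).card ≤ K) :
    ∑ x ∈ F, (cnt F T x : ℝ) * cnt F S x / cnt F Y x ≤ K * (F.card : ℝ) ^ 2 := by
  rw [sum_fib F (fun x => (T x, S x))]
  have h1 : ∀ p ∈ img F (fun x => (T x, S x)),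
      ∑ x ∈ fib F (fun x => (T x, S x)) p, (cnt F T x : ℝ) * cnt F S x / cnt F Y x
        ≤ K * (((fib F T p.1).card : ℝ) * (fib F S p.2).card) := by
    intro p hp
    obtain ⟨x₀, hx₀, rfl⟩ := mem_img.1 hp
    set G := fib F (fun x => (T x, S x)) (T x₀, S x₀) with hG
    have h2 : ∀ x ∈ G, (cnt F T x : ℝ) * cnt F S x / cnt F Y x
        = ((fib F T (T x₀)).card : ℝ) * (fib F S (S x₀)).card * (1 / cnt G Y x) := by
      intro x hx
      rw [hG, mem_fib] at hx
      obtain ⟨hxF, hx2⟩ := hx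
      simp only [Prod.mk.injEq] at hx2
      have e1 : cnt F T x = (fib F T (T x₀)).card := by
        unfold cnt
        rw [hx2.1]
      have e2 : cnt F S x = (fib F S (S x₀)).card := by
        unfold cnt
        rw [hx2.2]
      have e3 : cnt F Y x = cnt G Y x := by
        unfold cnt
        congr 1
        ext y
        simp only [mem_fib, hG, Prod.mk.injEq]
        constructor
        · rintro ⟨h3, h4⟩
          exact ⟨⟨h3, by rw [hT y h3 x hxF h4, hx2.1], by rw [hS y h3 x hxF h4, hx2.2]⟩, h4⟩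
        · rintro ⟨⟨h3, -⟩, h4⟩
          exact ⟨h3, h4⟩
      rw [e1, e2, e3]
      ring
    rw [Finset.sum_congr rfl h2, ← Finset.mul_sum, sum_one_div_cnt]
    have h3 := hK x₀ hx₀
    rw [mul_comm (K:ℝ)]
    refine mul_le_mul_of_nonneg_left ?_ (by positivity)
    exact_mod_cast h3
  refine (Finset.sum_le_sum h1).trans ?_
  rw [← Finset.mul_sum]
  refine mul_le_mul_of_nonneg_left ?_ (by positivity)
  have h5 : img F (fun x => (T x, S x)) ⊆ (img F T) ×ˢ (img F S) := by
    intro p hp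
    obtain ⟨x, hx, rfl⟩ := mem_img.1 hp
    simp only [Finset.mem_product]
    exact ⟨mem_img.2 ⟨x, hx, rfl⟩, mem_img.2 ⟨x, hx, rfl⟩⟩
  refine (Finset.sum_le_sum_of_subset_of_nonneg h5 (fun p _ _ => by positivity)).trans ?_
  rw [Finset.sum_product]
  simp only
  rw [← Finset.sum_mul_sum, sum_card_fib, sum_card_fib, sq]

/-- **The entropy step.** -/
theorem step {ι τ ρ σ υ : Type*} (F : Finset ι) (T : ι → τ) (R : ι → ρ) (S : ι → σ) (Y : ι → υ)
    (w : τ → ℝ) (w' : τ → ρ → ℝ) (H K : ℕ)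
    (hw : ∀ x ∈ F, 0 < w (T x)) (hw' : ∀ x ∈ F, 0 < w' (T x) (R x))
    (hle : ∀ x ∈ F, ∑ r ∈ img (fib F T (T x)) R, w' (T x) r ≤ w (T x))
    (hT : ∀ x ∈ F, ∀ y ∈ F, Y x = Y y → T x = T y) (hR : ∀ x ∈ F, ∀ y ∈ F, Y x = Y y → R x = R y)
    (hS : ∀ x ∈ F, ∀ y ∈ F, Y x = Y y → S x = S y)
    (hK : ∀ x ∈ F, (img (fib F (fun y => ((T y, R y), S y)) ((T x, R x), S x)) Y).card ≤ K)
    (hH : (img F T).card ≤ H) :
    ∑ x ∈ F, Real.log (w' (T x) (R x)) +
        ∑ x ∈ F, (Real.log (cnt F S x) - Real.log (cnt F Y x)) ≤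
      ∑ x ∈ F, Real.log (w (T x)) + F.card * (Real.log H + Real.log K) := by
  rcases F.eq_empty_or_nonempty with hF | hF
  · subst hF; simp
  obtain ⟨z, hz⟩ := hF
  have hF0 : (0:ℝ) < F.card := by
    exact_mod_cast Finset.card_pos.2 ⟨z, hz⟩
  have hH0 : (0:ℝ) < H := by
    have : 0 < (img F T).card := Finset.card_pos.2 ⟨T z, mem_img.2 ⟨z, hz, rfl⟩⟩
    exact_mod_cast this.trans_le hH
  have hK0 : (0:ℝ) < K := by
    have : 0 < (img (fib F (fun y => ((T y, R y), S y)) ((T z, R z), S z)) Y).card := by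
      refine Finset.card_pos.2 ⟨Y z, mem_img.2 ⟨z, ?_, rfl⟩⟩
      rw [mem_fib]
      exact ⟨hz, rfl⟩
    exact_mod_cast this.trans_le (hK z hz)
  set TR : ι → τ × ρ := fun y => (T y, R y) with hTR
  have c1 : ∀ x ∈ F, (0:ℝ) < cnt F T x := fun x hx => by exact_mod_cast cnt_pos T hx
  have c2 : ∀ x ∈ F, (0:ℝ) < cnt F TR x := fun x hx => by exact_mod_cast cnt_pos TR hx
  have c3 : ∀ x ∈ F, (0:ℝ) < cnt F S x := fun x hx => by exact_mod_cast cnt_pos S hx
  have c4 : ∀ x ∈ F, (0:ℝ) < cnt F Y x := fun x hx => by exact_mod_cast cnt_pos Y hx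
  -- first inequality
  have i1 := sum_log_le F (fun x => w' (T x) (R x) * cnt F T x / (w (T x) * cnt F TR x))
    (fun x hx => by
      have := c1 x hx
      have := c2 x hx
      have := hw x hx
      have := hw' x hx
      positivity) (step_one F T R w w' hw hle)
  -- second inequality
  have i2 := sum_log_le F (fun x => (cnt F TR x : ℝ) * cnt F S x / cnt F Y x / (K * F.card))
    (fun x hx => by
      have := c2 x hx
      have := c3 x hx
      have := c4 x hx
      positivity) (by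
      rw [← Finset.sum_div, div_le_iff₀ (by positivity)]
      refine (step_two F TR S Y K ?_ hS hK).trans (le_of_eq (by ring))
      intro x hx y hy h
      simp only [hTR, Prod.mk.injEq]
      exact ⟨hT x hx y hy h, hR x hx y hy h⟩)
  -- third inequality
  have i3 := sum_log_le F (fun x => (F.card : ℝ) / H * (1 / cnt F T x))
    (fun x hx => by
      have := c1 x hx
      positivity) (by
      rw [← Finset.mul_sum, sum_one_div_cnt, div_mul_eq_mul_div, div_le_iff₀ hH0]
      refine mul_le_mul_of_nonneg_left ?_ (by positivity)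
      exact_mod_cast hH)
  have e1 : ∀ x ∈ F, Real.log (w' (T x) (R x) * cnt F T x / (w (T x) * cnt F TR x))
      = Real.log (w' (T x) (R x)) + Real.log (cnt F T x) - Real.log (w (T x))
        - Real.log (cnt F TR x) := by
    intro x hx
    have h1 := c1 x hx
    have h2 := c2 x hx
    have h3 := hw x hx
    have h4 := hw' x hx
    rw [Real.log_div (by positivity) (by positivity), Real.log_mul h4.ne' h1.ne',
      Real.log_mul h3.ne' h2.ne']
    ring
  have e2 : ∀ x ∈ F, Real.log ((cnt F TR x : ℝ) * cnt F S x / cnt F Y x / (K * F.card))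
      = Real.log (cnt F TR x) + Real.log (cnt F S x) - Real.log (cnt F Y x)
        - Real.log K - Real.log F.card := by
    intro x hx
    have h1 := c2 x hx
    have h2 := c3 x hx
    have h3 := c4 x hx
    rw [Real.log_div (by positivity) (by positivity), Real.log_div (by positivity) (by positivity),
      Real.log_mul h1.ne' h2.ne', Real.log_mul hK0.ne' hF0.ne']
    ring
  have e3 : ∀ x ∈ F, Real.log ((F.card : ℝ) / H * (1 / cnt F T x))
      = Real.log F.card - Real.log H - Real.log (cnt F T x) := by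
    intro x hx
    have h1 := c1 x hx
    rw [Real.log_mul (by positivity) (by positivity), Real.log_div hF0.ne' hH0.ne',
      Real.log_div one_ne_zero h1.ne', Real.log_one]
    ring
  rw [Finset.sum_congr rfl e1] at i1
  rw [Finset.sum_congr rfl e2] at i2
  rw [Finset.sum_congr rfl e3] at i3
  simp only [Finset.sum_add_distrib, Finset.sum_sub_distrib, Finset.sum_const, nsmul_eq_mul] at *
  linarith

end Q85.ZE
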