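import Mathlib
import Pool.Agent.Q85.ZE.A

set_option autoImplicit false

/-!
# Zooms of a set of cells, and the telescoping sum
-/

namespace Q85.ZE

open Finset

/-- the cube of side `s` -/
noncomputable def box (d s : ℕ) : Finset (Fin d → ℤ) := Fintype.piFinset fun _ => Finset.Ico (0:ℤ) (s:ℤ)

theorem mem_box {d s : ℕ} {w : Fin d → ℤ} : w ∈ box d s ↔ ∀ l, 0 ≤ w l ∧ w l < s := by
  simp [box, Fintype.mem_piFinset]

open scoped Classical in
/-- the zoom of the set of cells `𝒜` into the block number `u` of side `s` -/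
noncomputable def zoomF {d : ℕ} (𝒜 : Set (Fin d → ℤ)) (s : ℕ) (u : Fin d → ℤ) :
    Finset (Fin d → ℤ) :=
  (box d s).filter fun w => (fun l => (s:ℤ) * u l + w l) ∈ 𝒜

theorem mem_zoomF {d : ℕ} {𝒜 : Set (Fin d → ℤ)} {s : ℕ} {u w : Fin d → ℤ} :
    w ∈ zoomF 𝒜 s u ↔ w ∈ box d s ∧ (fun l => (s:ℤ) * u l + w l) ∈ 𝒜 := by
  simp [zoomF]

/-- the zoom of a finite set of cells into a block of side `s'` -/
noncomputable def childF {d : ℕ} (s' : ℕ) (Z : Finset (Fin d → ℤ)) (r : Fin d → ℤ) :
    Finset (Fin d → ℤ) :=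
  zoomF (Z : Set (Fin d → ℤ)) s' r

theorem mem_childF {d : ℕ} {s' : ℕ} {Z : Finset (Fin d → ℤ)} {r w : Fin d → ℤ} :
    w ∈ childF s' Z r ↔ w ∈ box d s' ∧ (fun l => (s':ℤ) * r l + w l) ∈ Z := by
  simp [childF, mem_zoomF]

theorem child_zoom {d : ℕ} (𝒜 : Set (Fin d → ℤ)) (q s' : ℕ) (u r : Fin d → ℤ)
    (hr : r ∈ box d q) :
    zoomF 𝒜 s' (fun l => (q:ℤ) * u l + r l) = childF s' (zoomF 𝒜 (q * s') u) r := by
  ext w
  rw [mem_zoomF, mem_childF, mem_zoomF]
  constructor
  · rintro ⟨h1, h2⟩
    refine ⟨h1, ?_, ?_⟩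
    · rw [mem_box] at hr h1 ⊢
      intro l
      obtain ⟨a1, a2⟩ := hr l
      obtain ⟨b1, b2⟩ := h1 l
      have hs : (0:ℤ) ≤ s' := by positivity
      constructor
      · have := mul_nonneg hs a1
        linarith
      · push_cast
        nlinarith
    · convert h2 using 2
      push_cast
      ring
  · rintro ⟨h1, -, h2⟩
    refine ⟨h1, ?_⟩
    convert h2 using 2
    push_cast
    ring

theorem sum_child {d : ℕ} (s' : ℕ) (Z : Finset (Fin d → ℤ)) (Rs : Finset (Fin d → ℤ)) :
    ∑ r ∈ Rs, (childF s' Z r).card ≤ Z.card := by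
  classical
  rw [← Finset.card_sigma]
  refine Finset.card_le_card_of_injOn (fun p => fun l => (s':ℤ) * p.1 l + p.2 l) ?_ ?_
  · rintro ⟨r, w⟩ hp
    rw [Finset.mem_coe, Finset.mem_sigma] at hp
    exact (mem_childF.1 hp.2).2
  · rintro ⟨r, w⟩ hp ⟨r', w'⟩ hp' h
    rw [Finset.mem_coe, Finset.mem_sigma] at hp hp'
    have h1 := mem_box.1 (mem_childF.1 hp.2).1
    have h2 := mem_box.1 (mem_childF.1 hp'.2).1
    have h3 : ∀ l, r l = r' l ∧ w l = w' l := by
      intro l
      have h4 : (s':ℤ) * r l + w l = (s':ℤ) * r' l + w' l := congrFun h l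
      obtain ⟨a1, a2⟩ := h1 l
      obtain ⟨b1, b2⟩ := h2 l
      have hs : (0:ℤ) < s' := lt_of_le_of_lt a1 a2
      have h5 : r l = r' l := by
        have e1 : ((s':ℤ) * r l + w l) / s' = r l := by
          rw [add_comm, Int.add_mul_ediv_left _ _ hs.ne', Int.ediv_eq_zero_of_lt a1 a2, zero_add]
        have e2 : ((s':ℤ) * r' l + w' l) / s' = r' l := by
          rw [add_comm, Int.add_mul_ediv_left _ _ hs.ne', Int.ediv_eq_zero_of_lt b1 b2, zero_add]
        rw [← e1, ← e2, h4]
      refine ⟨h5, ?_⟩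
      rw [h5] at h4
      linarith
    have e1 : r = r' := funext fun l => (h3 l).1
    have e2 : w = w' := funext fun l => (h3 l).2
    subst e1 e2
    rfl

/-- the block of side `s` which contains `x` -/
def blk {d : ℕ} (s : ℕ) (x : Fin d → ℤ) : Fin d → ℤ := fun l => x l / (s:ℤ)

theorem blk_blk {d : ℕ} (s t : ℕ) (x : Fin d → ℤ) : blk t (blk s x) = blk (s * t) x := by
  funext l
  simp only [blk]
  rw [Int.ediv_ediv_of_nonneg (by positivity)]
  push_cast
  rfl

theorem tele (n J : ℕ) (a : ℕ → ℝ) :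
    ∑ j ∈ Finset.range J, (a (j - n) - a (j + 1)) =
      (n + 1) * a 0 - ∑ i ∈ Finset.range (n + 1), a (J - i) := by
  induction J with
  | zero =>
    simp
  | succ J ih =>
    rw [Finset.sum_range_succ, ih, Finset.sum_range_succ (fun i => a (J - i)) n,
      Finset.sum_range_succ' (fun i => a (J + 1 - i)) n]
    have : ∀ i ∈ Finset.range n, a (J + 1 - (i + 1)) = a (J - i) := by
      intro i _
      congr 1
      omega
    rw [Finset.sum_congr rfl this]
    simp only [Nat.sub_zero]
    ring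

/-- relative position of the block of side `s'` of `x` inside its block of side `q * s'` -/
def rel {d : ℕ} (q s' : ℕ) (x : Fin d → ℤ) : Fin d → ℤ :=
  fun l => blk s' x l - (q:ℤ) * blk (q * s') x l

theorem rel_mem {d : ℕ} {q s' : ℕ} (hq : 0 < q) (x : Fin d → ℤ) : rel q s' x ∈ box d q := by
  rw [mem_box]
  intro l
  have h1 : blk (q * s') x l = blk s' x l / (q:ℤ) := by
    have := congrFun (blk_blk s' q x) l
    rw [mul_comm, ← this]
    rfl
  have hq' : (0:ℤ) < q := by exact_mod_cast hq
  have h2 := Int.emod_nonneg (blk s' x l) hq'.ne'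
  have h3 := Int.emod_lt_of_pos (blk s' x l) hq'
  have h4 := Int.emod_def (blk s' x l) q
  simp only [rel, h1]
  constructor <;> linarith

theorem zoom_child {d : ℕ} (𝒜 : Set (Fin d → ℤ)) {q s' : ℕ} (hq : 0 < q) (x : Fin d → ℤ) :
    zoomF 𝒜 s' (blk s' x) = childF s' (zoomF 𝒜 (q * s') (blk (q * s') x)) (rel q s' x) := by
  rw [← child_zoom 𝒜 q s' _ _ (rel_mem hq x)]
  congr 1
  funext l
  simp [rel]

/-- **The main inequality in combinatorial form.** -/
theorem main_comb {n d : ℕ} (hd : 0 < d) {q J : ℕ} (hq : 0 < q) (𝒜 : Set (Fin d → ℤ))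
    (x : ℤ → Fin d → ℤ) (hx : ∀ i, x i ⟨0, hd⟩ = i) (F : Finset ℤ) (hF : F.Nonempty)
    (hmem : ∀ i ∈ F, x i ∈ 𝒜) (u₀ : Fin d → ℤ) (h0 : ∀ i ∈ F, blk (q ^ J) (x i) = u₀)
    (K : ℕ) (H : ℕ → ℕ)
    (hK : ∀ j < J, ∀ i ∈ F, (img (fib F (fun y => (rel q (q ^ (J - (j + 1))) (x y),
        blk (q ^ (J - (j - n))) (x y)))
      (rel q (q ^ (J - (j + 1))) (x i), blk (q ^ (J - (j - n))) (x i)))
        (fun y => blk (q ^ (J - (j + 1))) (x y))).card ≤ K)
    (hH : ∀ j < J, (img F fun i => zoomF 𝒜 (q ^ (J - j)) (blk (q ^ (J - j)) (x i))).card ≤ H j) :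
    (n + 1) * Real.log F.card ≤ Real.log (zoomF 𝒜 (q ^ J) u₀).card
      + (∑ i ∈ Finset.range (n + 1), (i:ℝ)) * Real.log q + J * Real.log K
      + ∑ j ∈ Finset.range J, Real.log (H j) := by
  set T : ℕ → ℤ → Finset (Fin d → ℤ) :=
    fun j i => zoomF 𝒜 (q ^ (J - j)) (blk (q ^ (J - j)) (x i)) with hT
  set X : ℕ → ℤ → (Fin d → ℤ) := fun j i => blk (q ^ (J - j)) (x i) with hX
  have hF0 : (0:ℝ) < F.card := by exact_mod_cast Finset.card_pos.2 hF
  have hside : ∀ j < J, q ^ (J - j) = q * q ^ (J - (j + 1)) := by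
    intro j hj
    rw [← pow_succ']
    congr 1
    omega
  have hTs : ∀ j < J, ∀ i, T (j + 1) i
      = childF (q ^ (J - (j + 1))) (T j i) (rel q (q ^ (J - (j + 1))) (x i)) := by
    intro j hj i
    simp only [hT]
    rw [hside j hj]
    exact zoom_child 𝒜 hq (x i)
  -- nonempty zooms
  have hne : ∀ j, ∀ i ∈ F, 0 < (T j i).card := by
    intro j i hi
    rw [Finset.card_pos]
    refine ⟨fun l => x i l - (q ^ (J - j) : ℕ) * blk (q ^ (J - j)) (x i) l, ?_⟩
    rw [mem_zoomF, mem_box]
    have hs : (0:ℤ) < (q ^ (J - j) : ℕ) := by exact_mod_cast pow_pos hq _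
    refine ⟨fun l => ?_, ?_⟩
    · have h2 := Int.emod_nonneg (x i l) hs.ne'
      have h3 := Int.emod_lt_of_pos (x i l) hs
      have h4 := Int.emod_def (x i l) (q ^ (J - j) : ℕ)
      simp only [blk]
      constructor <;> linarith
    · convert hmem i hi using 1
      funext l
      ring
  -- coarser blocks are determined by finer blocks
  have hdet : ∀ j j', j' ≤ j → ∀ y z, X j y = X j z → X j' y = X j' z := by
    intro j j' hj y z h
    simp only [hX] at h ⊢
    have e : q ^ (J - j') = q ^ (J - j) * q ^ ((J - j') - (J - j)) := by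
      rw [← pow_add]
      congr 1
      omega
    rw [e, ← blk_blk, ← blk_blk, h]
  have hrel : ∀ j < J, ∀ y z, X (j + 1) y = X (j + 1) z →
      rel q (q ^ (J - (j + 1))) (x y) = rel q (q ^ (J - (j + 1))) (x z) := by
    intro j hj y z h
    have h2 := hdet (j + 1) j (by omega) y z h
    simp only [hX] at h h2
    rw [hside j hj] at h2
    funext l
    simp only [rel]
    rw [congrFun h l, congrFun h2 l]
  -- one step
  have hstep : ∀ j < J, ∑ i ∈ F, Real.log (T (j + 1) i).card +
        ∑ i ∈ F, (Real.log (cnt F (X (j - n)) i) - Real.log (cnt F (X (j + 1)) i)) ≤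
      ∑ i ∈ F, Real.log (T j i).card + F.card * (Real.log (H j) + Real.log K) := by
    intro j hj
    have := step F (T j) (fun i => rel q (q ^ (J - (j + 1))) (x i)) (X (j - n)) (X (j + 1))
      (fun Z => (Z.card : ℝ)) (fun Z r => ((childF (q ^ (J - (j + 1))) Z r).card : ℝ)) (H j) K
      (fun i hi => by exact_mod_cast hne j i hi)
      (fun i hi => by
        rw [← hTs j hj i]
        exact_mod_cast hne (j + 1) i hi)
      (fun i hi => by exact_mod_cast sum_child _ _ _)
      (fun y _ z _ h => by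
        have h2 := hdet (j + 1) j (by omega) y z h
        simp only [hX] at h2
        simp only [hT]
        rw [h2])
      (fun y _ z _ h => hrel j hj y z h)
      (fun y _ z _ h => hdet (j + 1) (j - n) (by omega) y z h)
      (fun i hi => by
        refine le_trans (Finset.card_le_card ?_) (hK j hj i hi)
        intro w hw
        rw [mem_img] at hw ⊢
        obtain ⟨y, hy, rfl⟩ := hw
        refine ⟨y, ?_, rfl⟩
        rw [mem_fib] at hy ⊢
        obtain ⟨h1, h2⟩ := hy
        simp only [Prod.mk.injEq] at h2 ⊢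
        exact ⟨h1, h2.1.2, h2.2⟩)
      (hH j hj)
    refine le_trans (le_of_eq ?_) this
    congr 1
    refine Finset.sum_congr rfl fun i _ => ?_
    rw [← hTs j hj i]
  -- sum over the steps
  have hsum : ∀ m ≤ J, ∑ i ∈ F, Real.log (T m i).card +
        ∑ j ∈ Finset.range m, ∑ i ∈ F,
          (Real.log (cnt F (X (j - n)) i) - Real.log (cnt F (X (j + 1)) i)) ≤
      ∑ i ∈ F, Real.log (T 0 i).card
        + F.card * ∑ j ∈ Finset.range m, (Real.log (H j) + Real.log K) := by
    intro m
    induction m with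
    | zero => simp
    | succ m ih =>
      intro hm
      have h1 := ih (by omega)
      have h2 := hstep m (by omega)
      rw [Finset.sum_range_succ, Finset.sum_range_succ, mul_add]
      linarith
  have h1 := hsum J le_rfl
  rw [Finset.sum_comm] at h1
  have h2 : ∀ i ∈ F, ∑ j ∈ Finset.range J,
      (Real.log (cnt F (X (j - n)) i) - Real.log (cnt F (X (j + 1)) i)) ≥
        (n + 1) * Real.log F.card
          - (∑ t ∈ Finset.range (n + 1), (t:ℝ)) * Real.log q := by
    intro i hi
    rw [tele n J (fun j => Real.log (cnt F (X j) i))]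
    have e1 : cnt F (X 0) i = F.card := by
      unfold cnt
      congr 1
      ext y
      rw [mem_fib]
      constructor
      · exact fun h => h.1
      · intro hy
        refine ⟨hy, ?_⟩
        simp only [hX, Nat.sub_zero]
        rw [h0 y hy, h0 i hi]
    rw [e1, Finset.sum_mul]
    have h3 : ∀ t ∈ Finset.range (n + 1), Real.log (cnt F (X (J - t)) i) ≤ (t:ℝ) * Real.log q := by
      intro t _
      have h4 : cnt F (X (J - t)) i ≤ q ^ t := by
        have h5 : cnt F (X (J - t)) i ≤ q ^ (J - (J - t)) := by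
          set s : ℕ := q ^ (J - (J - t)) with hs
          have hs0 : (0:ℤ) < s := by exact_mod_cast pow_pos hq _
          have h6 : fib F (X (J - t)) (X (J - t) i)
              ⊆ Finset.Ico ((s:ℤ) * (i / s)) ((s:ℤ) * (i / s) + s) := by
            intro y hy
            rw [mem_fib] at hy
            have h7 := congrFun hy.2 ⟨0, hd⟩
            simp only [hX, blk, hx, ← hs] at h7
            have h8 := Int.emod_nonneg y hs0.ne'
            have h9 := Int.emod_lt_of_pos y hs0
            have h10 := Int.emod_def y s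
            rw [h7] at h10
            rw [Finset.mem_Ico]
            constructor <;> linarith
          have h7 := Finset.card_le_card h6
          rw [Int.card_Ico, add_sub_cancel_left, Int.toNat_natCast] at h7
          exact h7
        exact h5.trans (Nat.pow_le_pow_right hq (by omega))
      have h5 : (0:ℝ) < cnt F (X (J - t)) i := by exact_mod_cast cnt_pos _ hi
      have h6 : (cnt F (X (J - t)) i : ℝ) ≤ (q:ℝ) ^ t := by exact_mod_cast h4
      calc Real.log (cnt F (X (J - t)) i) ≤ Real.log ((q:ℝ) ^ t) := Real.log_le_log h5 h6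
        _ = t * Real.log q := by rw [Real.log_pow]
    have := Finset.sum_le_sum h3
    linarith
  have h3 := Finset.sum_le_sum h2
  rw [Finset.sum_const, nsmul_eq_mul] at h3
  have h4 : ∑ i ∈ F, Real.log (T J i).card ≥ 0 := by
    refine Finset.sum_nonneg fun i hi => Real.log_nonneg ?_
    exact_mod_cast hne J i hi
  have h5 : ∑ i ∈ F, Real.log (T 0 i).card = F.card * Real.log (zoomF 𝒜 (q ^ J) u₀).card := by
    have : ∀ i ∈ F, Real.log (T 0 i).card = Real.log (zoomF 𝒜 (q ^ J) u₀).card := by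
      intro i hi
      simp only [hT, Nat.sub_zero]
      rw [h0 i hi]
    rw [Finset.sum_congr rfl this, Finset.sum_const, nsmul_eq_mul]
  rw [h5, Finset.sum_add_distrib, Finset.sum_const, Finset.card_range, nsmul_eq_mul] at h1
  have h6 : (F.card:ℝ) * ((n + 1) * Real.log F.card
          - (∑ t ∈ Finset.range (n + 1), (t:ℝ)) * Real.log q) ≤
      F.card * (Real.log (zoomF 𝒜 (q ^ J) u₀).card
        + (∑ j ∈ Finset.range J, Real.log (H j) + J * Real.log K)) := by
    rw [mul_add]
    linarith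
  have h7 := le_of_mul_le_mul_left h6 hF0
  linarith

end Q85.ZE
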