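import Mathlib
import Pool.Agent.Q85.ZE.B

set_option autoImplicit false

/-!
# The discrete line in a generic direction
-/

namespace Q85.ZE

open Finset

/-- the cell of the line `P + i α` over `i` -/
noncomputable def pth {n : ℕ} (P α : Fin n → ℝ) (i : ℤ) : Fin (n + 1) → ℤ :=
  Fin.cons i fun l => ⌊P l + i * α l⌋

/-- no good simultaneous rational approximation with a small denominator -/
def Gen {n : ℕ} (q K' : ℕ) (α : Fin n → ℝ) : Prop :=
  ∀ m : ℕ, 0 < m → m < q ^ n → ∀ v : Fin n → ℤ, ∃ l, 1 / ((q:ℝ) * K') ≤ |(m:ℝ) * α l - v l|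

theorem Gen.int {n q K' : ℕ} {α : Fin n → ℝ} (h : Gen q K' α) (m : ℤ) (h0 : m ≠ 0)
    (h1 : |m| < (q:ℤ) ^ n) (v : Fin n → ℤ) : ∃ l, 1 / ((q:ℝ) * K') ≤ |(m:ℝ) * α l - v l| := by
  have h2 : 0 < m.natAbs := Int.natAbs_pos.2 h0
  have h3 : m.natAbs < q ^ n := by
    have : ((m.natAbs : ℕ) : ℤ) < ((q ^ n : ℕ) : ℤ) := by
      rw [Int.natCast_natAbs]
      exact_mod_cast h1
    exact_mod_cast this
  rcases le_or_gt 0 m with hm | hm
  · obtain ⟨l, hl⟩ := h m.natAbs h2 h3 v
    refine ⟨l, ?_⟩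
    have e : ((m.natAbs : ℕ) : ℝ) = (m : ℝ) := by
      rw [Nat.cast_natAbs, abs_of_nonneg hm]
    rwa [e] at hl
  · obtain ⟨l, hl⟩ := h m.natAbs h2 h3 (fun l => - v l)
    refine ⟨l, ?_⟩
    have e : ((m.natAbs : ℕ) : ℝ) = -(m : ℝ) := by
      rw [Nat.cast_natAbs, abs_of_neg hm]
      push_cast
      rfl
    rw [e] at hl
    rw [← abs_neg]
    convert hl using 2
    push_cast
    ring

theorem floor_ediv (a : ℝ) {s : ℕ} (hs : 0 < s) : ⌊a⌋ / (s:ℤ) = ⌊a / s⌋ := by
  have hs' : (0:ℤ) < s := by exact_mod_cast hs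
  have hsr : (0:ℝ) < s := by exact_mod_cast hs
  symm
  rw [Int.floor_eq_iff]
  have h1 := Int.emod_nonneg ⌊a⌋ hs'.ne'
  have h2 := Int.emod_lt_of_pos ⌊a⌋ hs'
  have h3 := Int.emod_def ⌊a⌋ s
  have h4 : (s:ℤ) * (⌊a⌋ / s) ≤ ⌊a⌋ := by linarith
  have h5 : ⌊a⌋ + 1 ≤ (s:ℤ) * (⌊a⌋ / s) + s := by linarith
  have h6 : (s:ℝ) * ((⌊a⌋ / (s:ℤ) : ℤ) : ℝ) ≤ a := by
    have : (((s:ℤ) * (⌊a⌋ / s) : ℤ) : ℝ) ≤ (⌊a⌋ : ℝ) := by exact_mod_cast h4
    push_cast at this
    exact this.trans (Int.floor_le a)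
  have h7 : a < (s:ℝ) * ((⌊a⌋ / (s:ℤ) : ℤ) : ℝ) + s := by
    have : ((⌊a⌋ + 1 : ℤ) : ℝ) ≤ (((s:ℤ) * (⌊a⌋ / s) + s : ℤ) : ℝ) := by exact_mod_cast h5
    push_cast at this
    exact (Int.lt_floor_add_one a).trans_le this
  constructor
  · rw [le_div_iff₀ hsr]
    linarith
  · rw [div_lt_iff₀ hsr]
    linarith

/-- the residual of a block of the line is bounded -/
theorem resid {n : ℕ} (P α : Fin n → ℝ) {L s : ℕ} (hs : 0 < s) (hL : ∀ l, |α l| ≤ L) (i : ℤ)
    (l : Fin n) :
    -(L:ℝ) ≤ P l / s + (blk s (pth P α i) 0 : ℤ) * α l - (blk s (pth P α i) l.succ : ℤ) ∧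
    P l / s + (blk s (pth P α i) 0 : ℤ) * α l - (blk s (pth P α i) l.succ : ℤ) < L + 1 := by
  have hs' : (0:ℤ) < s := by exact_mod_cast hs
  have hsr : (0:ℝ) < s := by exact_mod_cast hs
  have e1 : blk s (pth P α i) 0 = i / s := rfl
  have e2 : blk s (pth P α i) l.succ = ⌊(P l + i * α l) / s⌋ := by
    rw [← floor_ediv _ hs]
    rfl
  rw [e1, e2]
  have h1 := Int.emod_nonneg i hs'.ne'
  have h2 := Int.emod_lt_of_pos i hs'
  have h3 := Int.emod_def i s
  set c : ℤ := i / s with hc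
  set t : ℤ := i % s with ht
  have h4 : (i:ℝ) = s * c + t := by
    have : i = s * c + t := by linarith
    exact_mod_cast congrArg (fun z : ℤ => (z:ℝ)) this
  have h5 : (P l + i * α l) / s = P l / s + c * α l + (t / s) * α l := by
    rw [h4]
    field_simp
    ring
  have ht0 : (0:ℝ) ≤ (t:ℝ) / s := by
    have : (0:ℝ) ≤ t := by exact_mod_cast h1
    positivity
  have ht1 : (t:ℝ) / s ≤ 1 := by
    rw [div_le_one hsr]
    exact_mod_cast h2.le
  have h6 : |(t:ℝ) / s * α l| ≤ L := by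
    rw [abs_mul, abs_of_nonneg ht0]
    calc (t:ℝ) / s * |α l| ≤ 1 * L := mul_le_mul ht1 (hL l) (abs_nonneg _) zero_le_one
      _ = L := one_mul _
  have h7 := Int.floor_le ((P l + i * α l) / s)
  have h8 := Int.lt_floor_add_one ((P l + i * α l) / s)
  rw [h5] at h7 h8
  rw [h5]
  rw [abs_le] at h6
  constructor <;> linarith [h6.1, h6.2]

/-- **Multiplicity of the relative positions of the blocks of a generic line.** -/
theorem mult {n : ℕ} {q L K' J j : ℕ} (hq : 0 < q) (hK' : 0 < K') (P α : Fin n → ℝ)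
    (hL : ∀ l, |α l| ≤ L) (hα : Gen q K' α) (hj : j < J) (F : Finset ℤ)
    (r B : Fin (n + 1) → ℤ) :
    (img (fib F (fun y => (rel q (q ^ (J - (j + 1))) (pth P α y),
        blk (q ^ (J - (j - n))) (pth P α y))) (r, B))
        (fun y => blk (q ^ (J - (j + 1))) (pth P α y))).card ≤ ((2 * L + 1) * K') ^ n := by
  set s := q ^ (J - (j + 1)) with hs
  have hs0 : 0 < s := pow_pos hq _
  have hqr : (0:ℝ) < q := by exact_mod_cast hq
  have hKr : (0:ℝ) < K' := by exact_mod_cast hK'
  have hcard : (box n ((2 * L + 1) * K')).card = ((2 * L + 1) * K') ^ n := by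
    unfold box
    rw [Fintype.card_piFinset]
    simp only [Int.card_Ico, sub_zero, Int.toNat_natCast, Finset.prod_const, Finset.card_univ,
      Fintype.card_fin]
  rw [← hcard]
  set g : (Fin (n + 1) → ℤ) → (Fin n → ℤ) := fun Y l =>
    ⌊(K':ℝ) * (P l / s + (Y 0 : ℤ) * α l - (Y l.succ : ℤ) + L)⌋ with hg
  refine Finset.card_le_card_of_injOn g ?_ ?_
  · intro Y hY
    rw [Finset.mem_coe, mem_img] at hY
    obtain ⟨y, -, rfl⟩ := hY
    rw [Finset.mem_coe, mem_box]
    intro l
    obtain ⟨h1, h2⟩ := resid P α hs0 hL y l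
    simp only [hg]
    constructor
    · rw [Int.floor_nonneg]
      have : 0 ≤ P l / s + (blk s (pth P α y) 0 : ℤ) * α l - (blk s (pth P α y) l.succ : ℤ) + L := by
        linarith
      positivity
    · rw [Int.floor_lt]
      push_cast
      have : P l / s + (blk s (pth P α y) 0 : ℤ) * α l - (blk s (pth P α y) l.succ : ℤ) + L
          < 2 * L + 1 := by linarith
      calc (K':ℝ) * (P l / s + (blk s (pth P α y) 0 : ℤ) * α l
            - (blk s (pth P α y) l.succ : ℤ) + L) < K' * (2 * L + 1) :=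
            mul_lt_mul_of_pos_left this hKr
        _ = (2 * L + 1) * K' := by ring
  · intro Y hY Y' hY' hgg
    rw [Finset.mem_coe, mem_img] at hY hY'
    obtain ⟨y, hy, rfl⟩ := hY
    obtain ⟨z, hz, rfl⟩ := hY'
    rw [mem_fib] at hy hz
    obtain ⟨-, hy⟩ := hy
    obtain ⟨-, hz⟩ := hz
    simp only [Prod.mk.injEq] at hy hz
    obtain ⟨hy1, hy2⟩ := hy
    obtain ⟨hz1, hz2⟩ := hz
    set X := pth P α y with hX
    set Z := pth P α z with hZ
    -- difference of the blocks
    have hdiff : ∀ a, blk s X a - blk s Z a = q * (blk (q * s) X a - blk (q * s) Z a) := by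
      intro a
      have h1 : rel q s X a = rel q s Z a := by rw [hy1, hz1]
      simp only [rel] at h1
      linarith
    set m : ℤ := blk (q * s) X 0 - blk (q * s) Z 0 with hm
    have hm1 : |m| < (q:ℤ) ^ n := by
      have e1 : q * s = q ^ (J - j) := by
        rw [hs, ← pow_succ']
        congr 1
        omega
      have e2 : q ^ (J - (j - n)) = q * s * q ^ ((J - (j - n)) - (J - j)) := by
        rw [e1, ← pow_add]
        congr 1
        omega
      have h1 : blk (q ^ (J - (j - n))) X 0 = blk (q ^ (J - (j - n))) Z 0 := by rw [hy2, hz2]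
      rw [e2, ← blk_blk (q * s) _ X, ← blk_blk (q * s) _ Z] at h1
      set t := q ^ ((J - (j - n)) - (J - j)) with ht
      have ht0 : (0:ℤ) < t := by exact_mod_cast pow_pos hq _
      have ht1 : t ≤ q ^ n := Nat.pow_le_pow_right hq (by omega)
      have h2 : (blk (q * s) X 0) / (t:ℤ) = (blk (q * s) Z 0) / (t:ℤ) := h1
      have a1 := Int.emod_nonneg (blk (q * s) X 0) ht0.ne'
      have a2 := Int.emod_lt_of_pos (blk (q * s) X 0) ht0
      have a3 := Int.emod_def (blk (q * s) X 0) t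
      have b1 := Int.emod_nonneg (blk (q * s) Z 0) ht0.ne'
      have b2 := Int.emod_lt_of_pos (blk (q * s) Z 0) ht0
      have b3 := Int.emod_def (blk (q * s) Z 0) t
      rw [h2] at a3
      have : |m| < t := by
        rw [abs_lt, hm]
        constructor <;> linarith
      exact this.trans_le (by exact_mod_cast ht1)
    -- the approximation
    have happ : ∀ l : Fin n, |(m:ℝ) * α l
        - ((blk (q * s) X l.succ - blk (q * s) Z l.succ : ℤ) : ℝ)| < 1 / ((q:ℝ) * K') := by
      intro l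
      have h1 : g (blk s X) l = g (blk s Z) l := congrFun hgg l
      simp only [hg] at h1
      have h2 := Int.abs_sub_lt_one_of_floor_eq_floor h1
      have h3 : (K':ℝ) * (P l / s + (blk s X 0 : ℤ) * α l - (blk s X l.succ : ℤ) + L) -
          (K':ℝ) * (P l / s + (blk s Z 0 : ℤ) * α l - (blk s Z l.succ : ℤ) + L)
          = (q * K') * ((m:ℝ) * α l
            - ((blk (q * s) X l.succ - blk (q * s) Z l.succ : ℤ) : ℝ)) := by
        have e1 : ((blk s X 0 : ℤ) : ℝ) - (blk s Z 0 : ℤ) = q * m := by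
          have := hdiff 0
          exact_mod_cast congrArg (fun z : ℤ => (z:ℝ)) this
        have e2 : ((blk s X l.succ : ℤ) : ℝ) - (blk s Z l.succ : ℤ)
            = q * ((blk (q * s) X l.succ - blk (q * s) Z l.succ : ℤ) : ℝ) := by
          have := hdiff l.succ
          exact_mod_cast congrArg (fun z : ℤ => (z:ℝ)) this
        have e3 : (K':ℝ) * (P l / s + (blk s X 0 : ℤ) * α l - (blk s X l.succ : ℤ) + L) -
          (K':ℝ) * (P l / s + (blk s Z 0 : ℤ) * α l - (blk s Z l.succ : ℤ) + L)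
          = K' * ((((blk s X 0 : ℤ) : ℝ) - (blk s Z 0 : ℤ)) * α l
            - (((blk s X l.succ : ℤ) : ℝ) - (blk s Z l.succ : ℤ))) := by ring
        rw [e3, e1, e2]
        ring
      rw [h3, abs_mul, abs_of_pos (by positivity)] at h2
      rw [lt_div_iff₀ (by positivity)]
      linarith
    have hm0 : m = 0 := by
      by_contra hne
      obtain ⟨l, hl⟩ := hα.int m hne hm1 (fun l => blk (q * s) X l.succ - blk (q * s) Z l.succ)
      exact absurd (happ l) (not_lt.2 hl)
    funext a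
    refine Fin.cases ?_ (fun l => ?_) a
    · have := hdiff 0
      rw [← hm, hm0, mul_zero] at this
      linarith
    · have h1 := happ l
      rw [hm0] at h1
      have h2 : |((blk (q * s) X l.succ - blk (q * s) Z l.succ : ℤ) : ℝ)| < 1 := by
        have h3 : 1 / ((q:ℝ) * K') ≤ 1 := by
          rw [div_le_one (by positivity)]
          have a1 : (1:ℝ) ≤ q := by exact_mod_cast hq
          have a2 : (1:ℝ) ≤ K' := by exact_mod_cast hK'
          nlinarith
        rw [Int.cast_zero, zero_mul, zero_sub, abs_neg] at h1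
        exact h1.trans_le h3
      have h3 : blk (q * s) X l.succ - blk (q * s) Z l.succ = 0 := by
        rw [← Int.cast_abs] at h2
        have : |blk (q * s) X l.succ - blk (q * s) Z l.succ| < 1 := by exact_mod_cast h2
        exact Int.abs_lt_one_iff.1 this
      have := hdiff l.succ
      rw [h3, mul_zero] at this
      linarith

/-- **Pieces of a generic line in a set of cells.** -/
theorem line_bound {n : ℕ} {q L K' J : ℕ} (hq : 0 < q) (hK' : 0 < K') (P α : Fin n → ℝ)
    (hL : ∀ l, |α l| ≤ L) (hα : Gen q K' α) (𝒜 : Set (Fin (n + 1) → ℤ)) (F : Finset ℤ)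
    (hmem : ∀ i ∈ F, pth P α i ∈ 𝒜) (u₀ : Fin (n + 1) → ℤ)
    (h0 : ∀ i ∈ F, blk (q ^ J) (pth P α i) = u₀) (H : ℕ → ℕ)
    (hH : ∀ j < J, (img F fun i =>
      zoomF 𝒜 (q ^ (J - j)) (blk (q ^ (J - j)) (pth P α i))).card ≤ H j) :
    (F.card : ℝ) ^ (n + 1) ≤ (zoomF 𝒜 (q ^ J) u₀).card * (q:ℝ) ^ (∑ i ∈ Finset.range (n + 1), i)
      * ((((2 * L + 1) * K') ^ n : ℕ) : ℝ) ^ J * ∏ j ∈ Finset.range J, (H j : ℝ) := by
  rcases F.eq_empty_or_nonempty with hF | hF
  · subst hF
    simp only [Finset.card_empty, Nat.cast_zero]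
    rw [zero_pow (by omega)]
    positivity
  have hmain := main_comb (n := n) (d := n + 1) (by omega) hq 𝒜 (pth P α) (fun i => rfl) F hF
    hmem u₀ h0 (((2 * L + 1) * K') ^ n) H
    (fun j hj i hi => mult hq hK' P α hL hα hj F _ _) hH
  have hF0 : (0:ℝ) < F.card := by exact_mod_cast Finset.card_pos.2 hF
  obtain ⟨z, hz⟩ := hF
  have hqr : (0:ℝ) < q := by exact_mod_cast hq
  have hH0 : ∀ j ∈ Finset.range J, (0:ℝ) < H j := by
    intro j hj
    have h1 := hH j (Finset.mem_range.1 hj)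
    have h2 : 0 < (img F fun i =>
        zoomF 𝒜 (q ^ (J - j)) (blk (q ^ (J - j)) (pth P α i))).card :=
      Finset.card_pos.2 ⟨_, mem_img.2 ⟨z, hz, rfl⟩⟩
    exact_mod_cast h2.trans_le h1
  have hK0 : (0:ℝ) < (((2 * L + 1) * K') ^ n : ℕ) := by
    have : 0 < ((2 * L + 1) * K') ^ n := by positivity
    exact_mod_cast this
  have hZ0 : (0:ℝ) < (zoomF 𝒜 (q ^ J) u₀).card := by
    have : 0 < (zoomF 𝒜 (q ^ J) u₀).card := by
      rw [Finset.card_pos]
      refine ⟨fun l => pth P α z l - (q ^ J : ℕ) * u₀ l, ?_⟩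
      rw [mem_zoomF, mem_box]
      have hs : (0:ℤ) < (q ^ J : ℕ) := by exact_mod_cast pow_pos hq _
      refine ⟨fun l => ?_, ?_⟩
      · have h2 := Int.emod_nonneg (pth P α z l) hs.ne'
        have h3 := Int.emod_lt_of_pos (pth P α z l) hs
        have h4 := Int.emod_def (pth P α z l) (q ^ J : ℕ)
        have h5 := congrFun (h0 z hz) l
        simp only [blk] at h5
        rw [h5] at h4
        constructor <;> linarith
      · convert hmem z hz using 1
        funext l
        ring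
    exact_mod_cast this
  have hprod : (0:ℝ) < ∏ j ∈ Finset.range J, (H j : ℝ) := Finset.prod_pos hH0
  rw [← Real.log_le_log_iff (by positivity) (by positivity)]
  rw [Real.log_mul (by positivity) hprod.ne', Real.log_mul (by positivity) (by positivity),
    Real.log_mul hZ0.ne' (by positivity), Real.log_pow, Real.log_pow, Real.log_pow,
    Real.log_prod (fun j hj => (hH0 j hj).ne')]
  push_cast at hmain ⊢
  linarith

end Q85.ZE
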