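import Mathlib
import Pool.Agent.Q85.ZE.C

set_option autoImplicit false

/-!
# The exceptional set of slopes
-/

namespace Q85.ZE

open Finset MeasureTheory

/-- the exceptional slopes -/
def Exc (n q K' L : ℕ) : Set (Fin n → ℝ) := {α | (∀ l, |α l| ≤ L) ∧ ¬ Gen q K' α}

/-- the numbers `a` in `[-L, L]` with `m a` near an integer -/
def nearInt (L m : ℕ) (ε : ℝ) : Set ℝ := {a | |a| ≤ L ∧ ∃ v : ℤ, |(m:ℝ) * a - v| < ε}

theorem nearInt_vol {L m : ℕ} (hm : 0 < m) {ε : ℝ} (h0 : 0 ≤ ε) (h1 : ε ≤ 1) :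
    volume (nearInt L m ε) ≤ ENNReal.ofReal (2 * (2 * L + 3) * ε) := by
  have hmr : (0:ℝ) < m := by exact_mod_cast hm
  have hm1 : (1:ℝ) ≤ m := by exact_mod_cast hm
  set V : Finset ℤ := Finset.Icc (-((m * L + 1 : ℕ) : ℤ)) ((m * L + 1 : ℕ) : ℤ) with hV
  have hsub : nearInt L m ε ⊆ ⋃ v ∈ V, Set.Ioo (((v:ℝ) - ε) / m) (((v:ℝ) + ε) / m) := by
    rintro a ⟨ha, v, hv⟩
    rw [Set.mem_iUnion₂]
    refine ⟨v, ?_, ?_⟩
    · rw [abs_le] at ha
      rw [abs_lt] at hv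
      have b1 : (m:ℝ) * a ≤ m * L := mul_le_mul_of_nonneg_left ha.2 hmr.le
      have b2 : -((m:ℝ) * L) ≤ m * a := by
        have := mul_le_mul_of_nonneg_left ha.1 hmr.le
        linarith
      have c1 : (v:ℝ) ≤ ((m * L + 1 : ℕ) : ℤ) := by push_cast; linarith [hv.1]
      have c2 : -(((m * L + 1 : ℕ) : ℤ) : ℝ) ≤ v := by push_cast; linarith [hv.2]
      rw [hV, Finset.mem_Icc]
      exact ⟨by exact_mod_cast c2, by exact_mod_cast c1⟩
    · rw [abs_lt] at hv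
      rw [Set.mem_Ioo, div_lt_iff₀ hmr, lt_div_iff₀ hmr]
      constructor <;> linarith [hv.1, hv.2]
  refine (measure_mono hsub).trans ((measure_biUnion_finset_le _ _).trans ?_)
  have h2 : ∀ v ∈ V, volume (Set.Ioo (((v:ℝ) - ε) / m) (((v:ℝ) + ε) / m))
      = ENNReal.ofReal (2 * ε / m) := by
    intro v _
    rw [Real.volume_Ioo]
    congr 1
    ring
  rw [Finset.sum_congr rfl h2, Finset.sum_const, nsmul_eq_mul]
  have h3 : V.card = 2 * (m * L + 1) + 1 := by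
    rw [hV, Int.card_Icc]
    omega
  rw [h3, ← ENNReal.ofReal_natCast, ← ENNReal.ofReal_mul (by positivity)]
  apply ENNReal.ofReal_le_ofReal
  push_cast
  rw [mul_div_assoc', div_le_iff₀ hmr]
  have : (2 * ((m:ℝ) * L + 1) + 1) ≤ (2 * L + 3) * m := by nlinarith
  nlinarith [mul_le_mul_of_nonneg_right this (by positivity : (0:ℝ) ≤ 2 * ε)]

theorem exc_meas (n q K' L : ℕ) : MeasurableSet (Exc n q K' L) := by
  have h1 : Exc n q K' L = {α : Fin n → ℝ | ∀ l, |α l| ≤ (L:ℝ)} ∩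
      ⋃ m ∈ {m : ℕ | 0 < m ∧ m < q ^ n}, ⋃ v : Fin n → ℤ,
        {α : Fin n → ℝ | ∀ l, |(m:ℝ) * α l - v l| < 1 / ((q:ℝ) * K')} := by
    ext α
    simp only [Exc, Gen, Set.mem_ofPred_eq, Set.mem_inter_iff, Set.mem_iUnion]
    push Not
    constructor
    · rintro ⟨h1, m, h2, h3, v, h4⟩
      exact ⟨h1, m, ⟨h2, h3⟩, v, h4⟩
    · rintro ⟨h1, m, ⟨h2, h3⟩, v, h4⟩
      exact ⟨h1, m, h2, h3, v, h4⟩
  rw [h1]
  refine MeasurableSet.inter ?_ ?_
  · rw [Set.ofPred_forall]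
    exact MeasurableSet.iInter fun l =>
      measurableSet_le (continuous_abs.measurable.comp (measurable_pi_apply l)) measurable_const
  · refine MeasurableSet.biUnion (Set.to_countable _) fun m _ => MeasurableSet.iUnion fun v => ?_
    rw [Set.ofPred_forall]
    refine MeasurableSet.iInter fun l => ?_
    refine measurableSet_lt ?_ measurable_const
    exact continuous_abs.measurable.comp (((measurable_pi_apply l).const_mul _).sub_const _)

theorem exc_vol {n q K' L : ℕ} (hq : 0 < q) (hK' : 0 < K') :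
    volume (Exc n q K' L) ≤ ENNReal.ofReal ((2 * (2 * L + 3)) ^ n / (K':ℝ) ^ n) := by
  have hqr : (1:ℝ) ≤ q := by exact_mod_cast hq
  have hKr : (1:ℝ) ≤ K' := by exact_mod_cast hK'
  set ε : ℝ := 1 / ((q:ℝ) * K') with hε
  have hε0 : 0 ≤ ε := by positivity
  have hε1 : ε ≤ 1 := by
    rw [hε, div_le_one (by positivity)]
    nlinarith
  have hsub : Exc n q K' L ⊆ ⋃ m ∈ Finset.Ico 1 (q ^ n),
      Set.pi Set.univ (fun _ : Fin n => nearInt L m ε) := by
    rintro α ⟨h1, h2⟩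
    unfold Gen at h2
    push Not at h2
    obtain ⟨m, hm, hm2, v, hv⟩ := h2
    rw [Set.mem_iUnion₂]
    refine ⟨m, by rw [Finset.mem_Ico]; exact ⟨hm, hm2⟩, ?_⟩
    rw [Set.mem_univ_pi]
    intro l
    exact ⟨h1 l, v l, hv l⟩
  refine (measure_mono hsub).trans ((measure_biUnion_finset_le _ _).trans ?_)
  have h1 : ∀ m ∈ Finset.Ico 1 (q ^ n),
      volume (Set.pi Set.univ (fun _ : Fin n => nearInt L m ε))
        ≤ ENNReal.ofReal ((2 * (2 * L + 3) * ε) ^ n) := by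
    intro m hm
    rw [Finset.mem_Ico] at hm
    rw [volume_pi_pi, Finset.prod_const, Finset.card_univ, Fintype.card_fin,
      ENNReal.ofReal_pow (by positivity)]
    exact pow_le_pow_left' (nearInt_vol hm.1 hε0 hε1) n
  refine (Finset.sum_le_sum h1).trans ?_
  rw [Finset.sum_const, nsmul_eq_mul, ← ENNReal.ofReal_natCast,
    ← ENNReal.ofReal_mul (by positivity)]
  apply ENNReal.ofReal_le_ofReal
  rw [Nat.card_Ico]
  have h2 : ((q ^ n - 1 : ℕ) : ℝ) ≤ (q:ℝ) ^ n := by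
    have : q ^ n - 1 ≤ q ^ n := Nat.sub_le _ _
    exact_mod_cast this
  calc ((q ^ n - 1 : ℕ) : ℝ) * (2 * (2 * L + 3) * ε) ^ n
      ≤ (q:ℝ) ^ n * (2 * (2 * L + 3) * ε) ^ n := mul_le_mul_of_nonneg_right h2 (by positivity)
    _ = (2 * (2 * L + 3)) ^ n / (K':ℝ) ^ n := by
        rw [← mul_pow, ← div_pow, hε]
        congr 1
        have : (q:ℝ) ≠ 0 := by positivity
        have : (K':ℝ) ≠ 0 := by positivity
        field_simp

end Q85.ZE
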