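import Mathlib
import Pool.Agent.Q85.ZE.D

set_option autoImplicit false

/-!
# Cells, tubes and zooms in Euclidean space
-/

namespace Q85.ZE

open Finset MeasureTheory
open scoped ENNReal

/-- Euclidean space -/
abbrev Sp (d : ℕ) := EuclideanSpace ℝ (Fin d)

/-- the cell number `v` of side `s` -/
def cell {d : ℕ} (s : ℝ) (v : Fin d → ℤ) : Set (Sp d) :=
  {x | ∀ i, s * v i ≤ x i ∧ x i < s * (v i + 1)}

/-- the union of the cells of side `s` with numbers in `𝒜` -/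
def cells {d : ℕ} (s : ℝ) (𝒜 : Set (Fin d → ℤ)) : Set (Sp d) := {x | ∃ v ∈ 𝒜, x ∈ cell s v}

/-- the tube with centre `c`, direction `e`, half length `ℓ` and radius `ρ` -/
def tube {d : ℕ} (ℓ ρ : ℝ) (c e : Sp d) : Set (Sp d) :=
  {x | |inner ℝ e (x - c)| ≤ ℓ ∧ ‖x - c - inner ℝ e (x - c) • e‖ ≤ ρ}

/-- the zoom of `A` into the cube number `u` of side `t` -/
def zoom {d : ℕ} (t : ℝ) (u : Fin d → ℤ) (A : Set (Sp d)) : Set (Fin d → ℝ) :=
  {y | (∀ i, 0 ≤ y i ∧ y i < 1) ∧ (WithLp.toLp 2 fun i => t * (u i + y i) : Sp d) ∈ A}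

/-- the number of different zooms of `A` into the cubes of side `t` that meet `T ∩ A` -/
noncomputable def zoomNumber {d : ℕ} (t : ℝ) (T A : Set (Sp d)) : ℕ :=
  Set.ncard {Z | ∃ u, (cell t u ∩ (T ∩ A)).Nonempty ∧ Z = zoom t u A}

/-- the number of the cell of a point -/
noncomputable def idx {d : ℕ} (s : ℝ) (x : Sp d) : Fin d → ℤ := fun i => ⌊x i / s⌋

theorem mem_cell_iff {d : ℕ} {s : ℝ} (hs : 0 < s) {x : Sp d} {v : Fin d → ℤ} :
    x ∈ cell s v ↔ idx s x = v := by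
  unfold cell idx
  constructor
  · intro h
    funext i
    obtain ⟨h1, h2⟩ := h i
    rw [Int.floor_eq_iff, le_div_iff₀ hs, div_lt_iff₀ hs]
    constructor <;> linarith
  · rintro rfl i
    have h1 := Int.floor_le (x i / s)
    have h2 := Int.lt_floor_add_one (x i / s)
    rw [le_div_iff₀ hs] at h1
    rw [div_lt_iff₀ hs] at h2
    constructor <;> linarith

theorem mem_cells_iff {d : ℕ} {s : ℝ} (hs : 0 < s) {x : Sp d} {𝒜 : Set (Fin d → ℤ)} :
    x ∈ cells s 𝒜 ↔ idx s x ∈ 𝒜 := by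
  unfold cells
  constructor
  · rintro ⟨v, hv, hx⟩
    rw [mem_cell_iff hs] at hx
    rwa [hx]
  · intro h
    exact ⟨_, h, (mem_cell_iff hs).2 rfl⟩

/-- the set of points of the unit cube whose subcubes have numbers in `Z` -/
def Phi {d : ℕ} (N : ℕ) (Z : Finset (Fin d → ℤ)) : Set (Fin d → ℝ) :=
  {y | (∀ i, 0 ≤ y i ∧ y i < 1) ∧ (fun i => ⌊(N:ℝ) * y i⌋) ∈ Z}

theorem zoom_eq {d : ℕ} {s : ℝ} (hs : 0 < s) {N : ℕ} (hN : 0 < N) (u : Fin d → ℤ)
    (𝒜 : Set (Fin d → ℤ)) : zoom (N * s) u (cells s 𝒜) = Phi N (zoomF 𝒜 N u) := by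
  ext y
  unfold zoom Phi
  simp only [Set.mem_ofPred_eq]
  refine and_congr_right fun hy => ?_
  rw [mem_cells_iff hs, mem_zoomF]
  have h1 : (idx s (WithLp.toLp 2 fun i => (N:ℝ) * s * (u i + y i) : Sp d))
      = fun i => (N:ℤ) * u i + ⌊(N:ℝ) * y i⌋ := by
    funext i
    unfold idx
    have : (WithLp.toLp 2 fun i => (N:ℝ) * s * (u i + y i) : Sp d) i / s
        = (N:ℝ) * y i + (((N:ℤ) * u i : ℤ) : ℝ) := by
      show (N:ℝ) * s * (u i + y i) / s = _
      push_cast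
      field_simp
      ring
    rw [this, Int.floor_add_intCast]
    ring
  rw [h1]
  constructor
  · intro h
    refine ⟨?_, h⟩
    rw [mem_box]
    intro i
    obtain ⟨h2, h3⟩ := hy i
    constructor
    · rw [Int.floor_nonneg]
      positivity
    · rw [Int.floor_lt]
      push_cast
      have : (0:ℝ) < N := by exact_mod_cast hN
      nlinarith
  · exact fun h => h.2

theorem phi_inj {d N : ℕ} (hN : 0 < N) {Z Z' : Finset (Fin d → ℤ)} (hZ : Z ⊆ box d N)
    (hZ' : Z' ⊆ box d N) (h : Phi N Z = Phi N Z') : Z = Z' := by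
  have hNr : (0:ℝ) < N := by exact_mod_cast hN
  have key : ∀ W W' : Finset (Fin d → ℤ), W ⊆ box d N → Phi N W ⊆ Phi N W' → W ⊆ W' := by
    intro W W' hW hs w hw
    have h1 := mem_box.1 (hW hw)
    have h2 : (fun i => ⌊(N:ℝ) * ((w i : ℝ) / N)⌋) = w := by
      funext i
      rw [mul_div_cancel₀ _ hNr.ne', Int.floor_intCast]
    have h3 : (fun i => (w i : ℝ) / N) ∈ Phi N W := by
      refine ⟨fun i => ⟨?_, ?_⟩, ?_⟩
      · have : (0:ℝ) ≤ w i := by exact_mod_cast (h1 i).1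
        positivity
      · rw [div_lt_one hNr]
        exact_mod_cast (h1 i).2
      · show (fun i => ⌊(N:ℝ) * ((w i : ℝ) / N)⌋) ∈ W
        rw [h2]
        exact hw
    have h4 := (hs h3).2
    have h5 : (fun i => ⌊(N:ℝ) * ((w i : ℝ) / N)⌋) ∈ W' := h4
    rwa [h2] at h5
  exact Finset.Subset.antisymm (key Z Z' hZ h.le) (key Z' Z hZ' h.ge)

theorem zoomF_sub {d : ℕ} (𝒜 : Set (Fin d → ℤ)) (N : ℕ) (u : Fin d → ℤ) :
    zoomF 𝒜 N u ⊆ box d N := fun _ hw => (mem_zoomF.1 hw).1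

theorem zooms_finite {d : ℕ} {s : ℝ} (hs : 0 < s) {N : ℕ} (hN : 0 < N) (T : Set (Sp d))
    (𝒜 : Set (Fin d → ℤ)) :
    {Z | ∃ u, (cell (N * s) u ∩ (T ∩ cells s 𝒜)).Nonempty ∧
      Z = zoom (N * s) u (cells s 𝒜)}.Finite := by
  refine (((box d N).powerset.finite_toSet).image (Phi N)).subset ?_
  rintro Z ⟨u, -, rfl⟩
  rw [zoom_eq hs hN]
  exact ⟨_, by simpa using zoomF_sub 𝒜 N u, rfl⟩

/-- the number of zooms seen along a set of cells is at most the zoom number -/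
theorem img_le {d : ℕ} {s : ℝ} (hs : 0 < s) {N : ℕ} (hN : 0 < N) (T : Set (Sp d))
    (𝒜 : Set (Fin d → ℤ)) {ι : Type*} (F : Finset ι) (x : ι → Fin d → ℤ)
    (hx : ∀ i ∈ F, x i ∈ 𝒜 ∧ (cell s (x i) ∩ T).Nonempty) :
    (img F fun i => zoomF 𝒜 N (blk N (x i))).card ≤ zoomNumber (N * s) T (cells s 𝒜) := by
  have hfin := zooms_finite hs hN T 𝒜
  unfold zoomNumber
  rw [Set.ncard_eq_toFinset_card _ hfin]
  refine Finset.card_le_card_of_injOn (Phi N) ?_ ?_
  · intro Z hZ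
    rw [Finset.mem_coe, mem_img] at hZ
    obtain ⟨i, hi, rfl⟩ := hZ
    rw [Finset.mem_coe, Set.Finite.mem_toFinset]
    refine ⟨blk N (x i), ?_, (zoom_eq hs hN _ _).symm⟩
    obtain ⟨h1, p, hp1, hp2⟩ := hx i hi
    refine ⟨p, ?_, hp2, x i, h1, hp1⟩
    rw [mem_cell_iff (by positivity)]
    rw [mem_cell_iff hs] at hp1
    funext l
    rw [← hp1]
    show ⌊p l / (N * s)⌋ = ⌊p l / s⌋ / (N:ℤ)
    rw [floor_ediv _ hN]
    congr 1
    rw [div_div, mul_comm]
  · intro Z hZ Z' hZ' h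
    rw [Finset.mem_coe, mem_img] at hZ hZ'
    obtain ⟨i, -, rfl⟩ := hZ
    obtain ⟨j, -, rfl⟩ := hZ'
    exact phi_inj hN (zoomF_sub _ _ _) (zoomF_sub _ _ _) h

theorem cell_meas {d : ℕ} (s : ℝ) (v : Fin d → ℤ) : MeasurableSet (cell s v) := by
  unfold cell
  rw [Set.ofPred_forall]
  refine MeasurableSet.iInter fun i => ?_
  have h1 : Measurable fun x : Sp d => x i :=
    (EuclideanSpace.proj (𝕜 := ℝ) i : Sp d →L[ℝ] ℝ).continuous.measurable
  exact (measurableSet_le measurable_const h1).inter (measurableSet_lt h1 measurable_const)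

theorem cell_vol {d : ℕ} {s : ℝ} (hs : 0 < s) (v : Fin d → ℤ) :
    volume (cell s v) = ENNReal.ofReal (s ^ d) := by
  have h1 : cell s v = (MeasurableEquiv.toLp 2 (Fin d → ℝ)).symm ⁻¹'
      (Set.pi Set.univ fun i => Set.Ico (s * v i) (s * (v i + 1))) := by
    ext x
    rw [Set.mem_preimage, Set.mem_univ_pi]
    rfl
  rw [h1, (EuclideanSpace.volume_preserving_symm_measurableEquiv_toLp (Fin d)).measure_preimage
    ((MeasurableSet.univ_pi fun i => measurableSet_Ico).nullMeasurableSet), volume_pi_pi]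
  have h2 : ∀ i : Fin d, volume (Set.Ico (s * (v i:ℝ)) (s * (v i + 1))) = ENNReal.ofReal s := by
    intro i
    rw [Real.volume_Ico]
    congr 1
    ring
  rw [Finset.prod_congr rfl fun i _ => h2 i, Finset.prod_const, Finset.card_univ,
    Fintype.card_fin, ENNReal.ofReal_pow hs.le]

theorem cell_disj {d : ℕ} {s : ℝ} (hs : 0 < s) {v w : Fin d → ℤ} (h : v ≠ w) :
    Disjoint (cell s v) (cell s w) := by
  rw [Set.disjoint_left]
  intro x h1 h2
  rw [mem_cell_iff hs] at h1 h2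
  exact h (h1.symm.trans h2)

/-- the volume of a set of cells is at least the volume of its part in a block -/
theorem vol_ge {d : ℕ} {s : ℝ} (hs : 0 < s) {N : ℕ} (u : Fin d → ℤ)
    (𝒜 : Set (Fin d → ℤ)) :
    ENNReal.ofReal (s ^ d) * (zoomF 𝒜 N u).card ≤ volume (cells s 𝒜) := by
  have h1 : ⋃ w ∈ zoomF 𝒜 N u, cell s (fun l => (N:ℤ) * u l + w l) ⊆ cells s 𝒜 := by
    intro x hx
    rw [Set.mem_iUnion₂] at hx
    obtain ⟨w, hw, hx⟩ := hx
    exact ⟨_, (mem_zoomF.1 hw).2, hx⟩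
  refine le_trans (le_of_eq ?_) (measure_mono h1)
  rw [measure_biUnion_finset]
  · rw [Finset.sum_congr rfl fun w _ => cell_vol hs _, Finset.sum_const, nsmul_eq_mul, mul_comm]
  · intro w _ w' _ hww
    refine cell_disj hs fun h => hww ?_
    funext l
    have := congrFun h l
    simpa using this
  · exact fun w _ => cell_meas _ _

end Q85.ZE
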