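import Mathlib
import Pool.Agent.Q85.ZE.E

set_option autoImplicit false

/-!
# The inequality for one tube
-/

namespace Q85.ZE

open Finset MeasureTheory
open scoped ENNReal

theorem coord_le {d : ℕ} (x : Sp d) (i : Fin d) : |x i| ≤ ‖x‖ := by
  have := PiLp.norm_apply_le x i
  simpa using this

/-- the displacement of the cells of a tube from the cells of its axis -/
theorem disp {n : ℕ} {L R : ℕ} (hR : 1 ≤ R) {s ℓ ρ : ℝ} (hs : 0 < s) (hρ : ρ ≤ R * s)
    (c e : Sp (n + 1)) (α : Fin n → ℝ) (hα : ∀ l, |α l| ≤ L)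
    (hslope : ∀ l : Fin n, e l.succ = α l * e 0) {x : Sp (n + 1)} (hx : x ∈ tube ℓ ρ c e)
    (l : Fin n) :
    idx s x l.succ - ⌊(c l.succ - α l * c 0) / s + (idx s x 0 : ℤ) * α l⌋
      ∈ Finset.Icc (-(((2 * L + 1) * R + 1 : ℕ) : ℤ)) (((2 * L + 1) * R + 1 : ℕ) : ℤ) := by
  set t : ℝ := inner ℝ e (x - c) with ht
  set y : Sp (n + 1) := x - c - t • e with hy
  have hyn : ‖y‖ ≤ R * s := hx.2.trans hρ
  have hyi : ∀ i, |y i| ≤ R * s := fun i => (coord_le y i).trans hyn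
  have hyv : ∀ i, y i = x i - c i - t * e i := fun i => by simp [hy]
  have h0 := hyv 0
  have h1 := hyv l.succ
  rw [hslope] at h1
  set θ : ℝ := x 0 / s - (idx s x 0 : ℤ) with hθ
  have hθ0 : 0 ≤ θ := by
    have := Int.floor_le (x 0 / s)
    rw [hθ]
    unfold idx
    linarith
  have hθ1 : θ < 1 := by
    have := Int.lt_floor_add_one (x 0 / s)
    rw [hθ]
    unfold idx
    linarith
  have hLr : (0:ℝ) ≤ L := by positivity
  have hRr : (1:ℝ) ≤ R := by exact_mod_cast hR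
  have key : x l.succ / s - ((c l.succ - α l * c 0) / s + (idx s x 0 : ℤ) * α l)
      = α l * θ + (y l.succ - α l * y 0) / s := by
    rw [hθ, h0, h1]
    field_simp
    ring
  have hb : |x l.succ / s - ((c l.succ - α l * c 0) / s + (idx s x 0 : ℤ) * α l)|
      ≤ (2 * L + 1) * R := by
    rw [key]
    have a1 : |α l * θ| ≤ L * 1 := by
      rw [abs_mul, abs_of_nonneg hθ0]
      exact mul_le_mul (hα l) hθ1.le hθ0 hLr
    have a2 : |(y l.succ - α l * y 0) / s| ≤ R + L * R := by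
      rw [abs_div, abs_of_pos hs, div_le_iff₀ hs]
      have b1 := abs_sub (y l.succ) (α l * y 0)
      have b2 : |α l * y 0| ≤ L * (R * s) := by
        rw [abs_mul]
        exact mul_le_mul (hα l) (hyi 0) (abs_nonneg _) hLr
      have b3 := hyi l.succ
      linarith
    calc |α l * θ + (y l.succ - α l * y 0) / s| ≤ |α l * θ| + |(y l.succ - α l * y 0) / s| :=
          abs_add_le _ _
      _ ≤ L * 1 + (R + L * R) := add_le_add a1 a2
      _ ≤ (2 * L + 1) * R := by nlinarith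
  have f1 := Int.floor_le (x l.succ / s)
  have f2 := Int.lt_floor_add_one (x l.succ / s)
  have g1 := Int.floor_le ((c l.succ - α l * c 0) / s + (idx s x 0 : ℤ) * α l)
  have g2 := Int.lt_floor_add_one ((c l.succ - α l * c 0) / s + (idx s x 0 : ℤ) * α l)
  rw [abs_le] at hb
  have e1 : idx s x l.succ = ⌊x l.succ / s⌋ := rfl
  rw [e1, Finset.mem_Icc]
  set a := ⌊x l.succ / s⌋
  set b := ⌊(c l.succ - α l * c 0) / s + (idx s x 0 : ℤ) * α l⌋
  have r1 : -(((2 * L + 1) * R + 1 : ℝ)) ≤ (a:ℝ) - b := by linarith [hb.1]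
  have r2 : (a:ℝ) - b ≤ (2 * L + 1) * R + 1 := by linarith [hb.2]
  constructor
  · have : ((-(((2 * L + 1) * R + 1 : ℕ) : ℤ) : ℤ) : ℝ) ≤ ((a - b : ℤ) : ℝ) := by
      push_cast
      linarith
    exact_mod_cast this
  · have : ((a - b : ℤ) : ℝ) ≤ ((((2 * L + 1) * R + 1 : ℕ) : ℤ) : ℝ) := by
      push_cast
      linarith
    exact_mod_cast this

/-- the unit cubes met by a tube -/
theorem top_block {d : ℕ} {R : ℕ} {s ℓ ρ : ℝ} (hs1 : s ≤ 1)
    (hℓ : ℓ ≤ R) (hρ : ρ ≤ R * s) {N : ℕ} (hN : 0 < N) (hNs : N * s = 1)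
    (c e : Sp d) (he : ‖e‖ = 1) {x : Sp d} (hx : x ∈ tube ℓ ρ c e) (i : Fin d) :
    blk N (idx s x) i ∈ Finset.Icc (⌊c i⌋ - ((2 * R + 1 : ℕ) : ℤ)) (⌊c i⌋ + ((2 * R + 1 : ℕ) : ℤ)) := by
  set t : ℝ := inner ℝ e (x - c) with ht
  have hRr : (0:ℝ) ≤ R := by positivity
  have h1 : ‖x - c‖ ≤ 2 * R := by
    have e1 : x - c = t • e + (x - c - t • e) := by abel
    calc ‖x - c‖ = ‖t • e + (x - c - t • e)‖ := by rw [← e1]
      _ ≤ ‖t • e‖ + ‖x - c - t • e‖ := norm_add_le _ _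
      _ ≤ R + R * 1 := by
          refine add_le_add ?_ ?_
          · rw [norm_smul, he, mul_one, Real.norm_eq_abs]
            exact hx.1.trans hℓ
          · exact (hx.2.trans hρ).trans (mul_le_mul_of_nonneg_left hs1 hRr)
      _ = 2 * R := by ring
  have h2 : |x i - c i| ≤ 2 * R := by
    have := coord_le (x - c) i
    have e2 : (x - c) i = x i - c i := by simp
    rw [e2] at this
    exact this.trans h1
  have e3 : blk N (idx s x) i = ⌊x i⌋ := by
    show ⌊x i / s⌋ / (N:ℤ) = ⌊x i⌋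
    rw [floor_ediv _ hN, div_div, mul_comm s, hNs, div_one]
  rw [e3, Finset.mem_Icc]
  have f1 := Int.floor_le (x i)
  have f2 := Int.lt_floor_add_one (x i)
  have g1 := Int.floor_le (c i)
  have g2 := Int.lt_floor_add_one (c i)
  rw [abs_le] at h2
  have r1 : -((2 * R + 1 : ℝ)) ≤ (⌊x i⌋:ℝ) - ⌊c i⌋ := by linarith [h2.1]
  have r2 : (⌊x i⌋:ℝ) - ⌊c i⌋ ≤ 2 * R + 1 := by linarith [h2.2]
  constructor
  · have : ((⌊c i⌋ - ((2 * R + 1 : ℕ) : ℤ) : ℤ) : ℝ) ≤ ((⌊x i⌋ : ℤ) : ℝ) := by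
      push_cast
      linarith
    exact_mod_cast this
  · have : ((⌊x i⌋ : ℤ) : ℝ) ≤ ((⌊c i⌋ + ((2 * R + 1 : ℕ) : ℤ) : ℤ) : ℝ) := by
      push_cast
      linarith
    exact_mod_cast this

/-- the constant from the pigeonhole principle -/
def Mc (n L R : ℕ) : ℕ := (2 * ((2 * L + 1) * R + 1) + 1) ^ n * (2 * (2 * R + 1) + 1) ^ (n + 1)

/-- **The inequality for one tube.** -/
theorem one_tube {n : ℕ} {L R q K' J : ℕ} (hR : 1 ≤ R) (hq : 0 < q) (hK' : 0 < K')
    {s ℓ ρ : ℝ} (hs : s = ((q:ℝ) ^ J)⁻¹) (hℓ : ℓ ≤ R) (hρ : ρ ≤ R * s)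
    (c e : Sp (n + 1)) (he : ‖e‖ = 1) (α : Fin n → ℝ) (hαL : ∀ l, |α l| ≤ L)
    (hslope : ∀ l : Fin n, e l.succ = α l * e 0) (hα : Gen q K' α)
    (𝒜 : Set (Fin (n + 1) → ℤ)) :
    volume (tube ℓ ρ c e ∩ cells s 𝒜) ^ (n + 1) ≤
      ENNReal.ofReal ((Mc n L R : ℝ) ^ (n + 1) * ((q:ℝ) ^ (∑ i ∈ Finset.range (n + 1), i)
        * ((((2 * L + 1) * K') ^ n : ℕ) : ℝ) ^ J
        * ∏ j ∈ Finset.range J,
          (zoomNumber ((q ^ (J - j) : ℕ) * s) (tube ℓ ρ c e) (cells s 𝒜) : ℝ))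
        * (s ^ (n + 1)) ^ n) * volume (cells s 𝒜) := by
  classical
  set T := tube ℓ ρ c e with hT
  set N : ℕ := q ^ J with hN
  have hN0 : 0 < N := pow_pos hq _
  have hqr : (1:ℝ) ≤ q := by exact_mod_cast hq
  have hs0 : 0 < s := by rw [hs]; positivity
  have hNs : (N:ℝ) * s = 1 := by
    rw [hs, hN]
    push_cast
    exact mul_inv_cancel₀ (by positivity)
  have hs1 : s ≤ 1 := by
    rw [hs]
    exact inv_le_one_of_one_le₀ (one_le_pow₀ hqr)
  set D : ℕ := (2 * L + 1) * R + 1 with hD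
  set P : Fin n → ℝ := fun l => (c l.succ - α l * c 0) / s with hP
  -- the cells of `𝒜` which meet the tube
  set Wb : Finset (Fin n → ℤ) := Fintype.piFinset fun _ => Finset.Icc (-(D:ℤ)) (D:ℤ) with hWb
  set Bb : Finset (Fin (n + 1) → ℤ) := Fintype.piFinset fun i =>
    Finset.Icc (⌊c i⌋ - ((2 * R + 1 : ℕ) : ℤ)) (⌊c i⌋ + ((2 * R + 1 : ℕ) : ℤ)) with hBb
  set Vb : Finset (Fin (n + 1) → ℤ) := Fintype.piFinset fun i =>
    Finset.Icc ((N:ℤ) * (⌊c i⌋ - ((2 * R + 1 : ℕ) : ℤ))) ((N:ℤ) * (⌊c i⌋ + ((2 * R + 1 : ℕ) : ℤ)) + N)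
    with hVb
  set V : Finset (Fin (n + 1) → ℤ) := Vb.filter fun v => v ∈ 𝒜 ∧ (cell s v ∩ T).Nonempty with hV
  have hVmem : ∀ v, v ∈ 𝒜 → (cell s v ∩ T).Nonempty → v ∈ V ∧ blk N v ∈ Bb ∧
      (fun l : Fin n => v l.succ - ⌊P l + (v 0 : ℤ) * α l⌋) ∈ Wb := by
    rintro v hv ⟨x, hx1, hx2⟩
    have hxv := (mem_cell_iff hs0).1 hx1
    have h1 : blk N v ∈ Bb := by
      rw [hBb, Fintype.mem_piFinset]
      intro i
      rw [← hxv]
      exact top_block hs1 hℓ hρ hN0 hNs c e he hx2 i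
    refine ⟨?_, h1, ?_⟩
    · rw [hV, Finset.mem_filter]
      refine ⟨?_, hv, x, hx1, hx2⟩
      rw [hVb, Fintype.mem_piFinset]
      intro i
      rw [hBb, Fintype.mem_piFinset] at h1
      have h2 := h1 i
      rw [Finset.mem_Icc] at h2 ⊢
      have hNz : (0:ℤ) < N := by exact_mod_cast hN0
      have a1 := Int.emod_nonneg (v i) hNz.ne'
      have a2 := Int.emod_lt_of_pos (v i) hNz
      have a3 := Int.emod_def (v i) N
      simp only [blk] at h2
      have a4 := mul_le_mul_of_nonneg_left h2.1 hNz.le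
      have a5 := mul_le_mul_of_nonneg_left h2.2 hNz.le
      constructor <;> linarith
    · rw [hWb, Fintype.mem_piFinset]
      intro l
      have := disp hR hs0 hρ c e α hαL hslope hx2 l
      rw [hxv] at this
      exact this
  have hcover : T ∩ cells s 𝒜 ⊆ ⋃ v ∈ V, cell s v := by
    rintro x ⟨hx1, v, hv, hx2⟩
    rw [Set.mem_iUnion₂]
    exact ⟨v, (hVmem v hv ⟨x, hx2, hx1⟩).1, hx2⟩
  have hvol : volume (T ∩ cells s 𝒜) ≤ ENNReal.ofReal (s ^ (n + 1)) * V.card := by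
    refine (measure_mono hcover).trans ((measure_biUnion_finset_le _ _).trans (le_of_eq ?_))
    rw [Finset.sum_congr rfl fun v _ => cell_vol hs0 v, Finset.sum_const, nsmul_eq_mul, mul_comm]
  -- pigeonhole
  have hWcard : Wb.card = (2 * D + 1) ^ n := by
    rw [hWb, Fintype.card_piFinset]
    simp only [Int.card_Icc, Finset.prod_const, Finset.card_univ, Fintype.card_fin]
    congr 1
    omega
  have hBcard : Bb.card = (2 * (2 * R + 1) + 1) ^ (n + 1) := by
    rw [hBb, Fintype.card_piFinset]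
    have : ∀ i : Fin (n + 1), (Finset.Icc (⌊c i⌋ - ((2 * R + 1 : ℕ) : ℤ))
        (⌊c i⌋ + ((2 * R + 1 : ℕ) : ℤ))).card = 2 * (2 * R + 1) + 1 := by
      intro i
      rw [Int.card_Icc]
      omega
    rw [Finset.prod_congr rfl fun i _ => this i]
    simp
  have hMcard : (Wb ×ˢ Bb).card = Mc n L R := by
    rw [Finset.card_product, hWcard, hBcard]
    rfl
  have hM0 : 0 < Mc n L R := by unfold Mc; positivity
  have hMr : (0:ℝ) < Mc n L R := by exact_mod_cast hM0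
  set f : (Fin (n + 1) → ℤ) → (Fin n → ℤ) × (Fin (n + 1) → ℤ) :=
    fun v => (fun l => v l.succ - ⌊P l + (v 0 : ℤ) * α l⌋, blk N v) with hf
  have hmaps : ∀ v ∈ V, f v ∈ Wb ×ˢ Bb := by
    intro v hv
    rw [hV, Finset.mem_filter] at hv
    have := hVmem v hv.2.1 hv.2.2
    rw [Finset.mem_product]
    exact ⟨this.2.2, this.2.1⟩
  obtain ⟨p, hp, hpc⟩ := Finset.exists_le_card_fiber_of_nsmul_le_card_of_maps_to (s := V)
    (t := Wb ×ˢ Bb) (f := f) (b := (V.card : ℝ) / Mc n L R) hmaps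
    (Finset.card_pos.1 (by rw [hMcard]; exact hM0)) (by
      rw [nsmul_eq_mul, hMcard]
      exact le_of_eq (mul_div_cancel₀ _ hMr.ne'))
  set G : Finset (Fin (n + 1) → ℤ) := V.filter fun v => f v = p with hG
  -- the fibre as a piece of a line
  set P' : Fin n → ℝ := fun l => P l + p.1 l with hP'
  have hline : ∀ v ∈ G, pth P' α (v 0) = v := by
    intro v hv
    rw [hG, Finset.mem_filter] at hv
    have h1 : (fun l : Fin n => v l.succ - ⌊P l + (v 0 : ℤ) * α l⌋) = p.1 := congrArg Prod.fst hv.2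
    funext i
    refine Fin.cases rfl (fun l => ?_) i
    show ⌊P l + (p.1 l : ℝ) + (v 0 : ℤ) * α l⌋ = v l.succ
    have h2 := congrFun h1 l
    have h3 : P l + (p.1 l : ℝ) + (v 0 : ℤ) * α l = P l + (v 0 : ℤ) * α l + (p.1 l : ℤ) := by
      ring
    rw [h3, Int.floor_add_intCast, ← h2]
    ring
  set F : Finset ℤ := G.image fun v => v 0 with hF
  have hFG : F.card = G.card := by
    rw [hF]
    refine Finset.card_image_of_injOn ?_
    intro v hv w hw h
    have h' : v 0 = w 0 := h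
    rw [← hline v hv, ← hline w hw, h']
  have hFmem : ∀ i ∈ F, pth P' α i ∈ G := by
    intro i hi
    rw [hF, Finset.mem_image] at hi
    obtain ⟨v, hv, rfl⟩ := hi
    rw [hline v hv]
    exact hv
  have hlb := line_bound (J := J) hq hK' P' α hαL hα 𝒜 F
    (fun i hi => by
      have := hFmem i hi
      rw [hG, Finset.mem_filter, hV, Finset.mem_filter] at this
      exact this.1.2.1) p.2
    (fun i hi => by
      have := hFmem i hi
      rw [hG, Finset.mem_filter] at this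
      exact congrArg Prod.snd this.2)
    (fun j => zoomNumber ((q ^ (J - j) : ℕ) * s) T (cells s 𝒜))
    (fun j hj => img_le hs0 (pow_pos hq _) T 𝒜 F (pth P' α) (fun i hi => by
      have := hFmem i hi
      rw [hG, Finset.mem_filter, hV, Finset.mem_filter] at this
      exact this.1.2))
  set B : ℝ := (q:ℝ) ^ (∑ i ∈ Finset.range (n + 1), i)
      * ((((2 * L + 1) * K') ^ n : ℕ) : ℝ) ^ J
      * ∏ j ∈ Finset.range J, (zoomNumber ((q ^ (J - j) : ℕ) * s) T (cells s 𝒜) : ℝ) with hB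
  have hB0 : 0 ≤ B := by
    rw [hB]
    positivity
  have hlb' : (G.card : ℝ) ^ (n + 1) ≤ (zoomF 𝒜 N p.2).card * B := by
    rw [← hFG, hB]
    refine hlb.trans (le_of_eq ?_)
    ring
  have hVG : (V.card : ℝ) ≤ Mc n L R * G.card := by
    rw [div_le_iff₀ hMr] at hpc
    linarith
  have hV2 : (V.card : ℝ) ^ (n + 1) ≤ (Mc n L R : ℝ) ^ (n + 1) * ((zoomF 𝒜 N p.2).card * B) := by
    calc (V.card : ℝ) ^ (n + 1) ≤ (Mc n L R * G.card) ^ (n + 1) :=
          pow_le_pow_left₀ (by positivity) hVG _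
      _ = (Mc n L R : ℝ) ^ (n + 1) * (G.card : ℝ) ^ (n + 1) := by rw [mul_pow]
      _ ≤ _ := mul_le_mul_of_nonneg_left hlb' (by positivity)
  have hvA := vol_ge hs0 (N := N) p.2 𝒜
  calc volume (T ∩ cells s 𝒜) ^ (n + 1)
      ≤ (ENNReal.ofReal (s ^ (n + 1)) * V.card) ^ (n + 1) := pow_le_pow_left' hvol _
    _ = ENNReal.ofReal ((s ^ (n + 1)) ^ (n + 1) * (V.card : ℝ) ^ (n + 1)) := by
        rw [mul_pow, ← ENNReal.ofReal_natCast, ← ENNReal.ofReal_pow (by positivity),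
          ← ENNReal.ofReal_pow (by positivity), ← ENNReal.ofReal_mul (by positivity)]
    _ ≤ ENNReal.ofReal (((Mc n L R : ℝ) ^ (n + 1) * B * (s ^ (n + 1)) ^ n) *
          (s ^ (n + 1) * (zoomF 𝒜 N p.2).card)) := by
        apply ENNReal.ofReal_le_ofReal
        have := mul_le_mul_of_nonneg_left hV2 (by positivity : 0 ≤ (s ^ (n + 1)) ^ (n + 1))
        refine this.trans (le_of_eq ?_)
        ring
    _ = ENNReal.ofReal ((Mc n L R : ℝ) ^ (n + 1) * B * (s ^ (n + 1)) ^ n) *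
          (ENNReal.ofReal (s ^ (n + 1)) * (zoomF 𝒜 N p.2).card) := by
        have hx : ENNReal.ofReal (s ^ (n + 1) * ((zoomF 𝒜 N p.2).card : ℝ))
            = ENNReal.ofReal (s ^ (n + 1)) * (zoomF 𝒜 N p.2).card := by
          rw [ENNReal.ofReal_mul (by positivity), ENNReal.ofReal_natCast]
        rw [ENNReal.ofReal_mul (p := (Mc n L R : ℝ) ^ (n + 1) * B * (s ^ (n + 1)) ^ n)
          (by positivity), hx]
    _ ≤ _ := mul_le_mul_right hvA _

end Q85.ZE
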