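import Mathlib
import Pool.Agent.Q85.ZE.F

set_option autoImplicit false

/-!
# Families of tubes
-/

namespace Q85.ZE

open Finset MeasureTheory
open scoped ENNReal

theorem tube_meas {d : ℕ} (ℓ ρ : ℝ) (c e : Sp d) : MeasurableSet (tube ℓ ρ c e) := by
  have h1 : IsClosed {x : Sp d | |inner ℝ e (x - c)| ≤ ℓ} :=
    isClosed_le (by fun_prop) continuous_const
  have h2 : IsClosed {x : Sp d | ‖x - c - inner ℝ e (x - c) • e‖ ≤ ρ} :=
    isClosed_le (by fun_prop) continuous_const
  exact (h1.inter h2).measurableSet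

theorem tube_bdd {d : ℕ} (ℓ ρ : ℝ) (c e : Sp d) : volume (tube ℓ ρ c e) < ⊤ := by
  have h1 : tube ℓ ρ c e ⊆ Metric.closedBall c (ℓ * ‖e‖ + ρ) := by
    rintro x ⟨h1, h2⟩
    rw [mem_closedBall_iff_norm]
    have e1 : x - c = inner ℝ e (x - c) • e + (x - c - inner ℝ e (x - c) • e) := by abel
    calc ‖x - c‖ = ‖inner ℝ e (x - c) • e + (x - c - inner ℝ e (x - c) • e)‖ := by rw [← e1]
      _ ≤ ‖inner ℝ e (x - c) • e‖ + ‖x - c - inner ℝ e (x - c) • e‖ := norm_add_le _ _
      _ ≤ ℓ * ‖e‖ + ρ := by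
          refine add_le_add ?_ h2
          rw [norm_smul, Real.norm_eq_abs]
          exact mul_le_mul_of_nonneg_right h1 (norm_nonneg _)
  exact (measure_mono h1).trans_lt (isCompact_closedBall _ _).measure_lt_top

theorem cells_meas {d : ℕ} (s : ℝ) (𝒜 : Set (Fin d → ℤ)) : MeasurableSet (cells s 𝒜) := by
  have : cells s 𝒜 = ⋃ v ∈ 𝒜, cell s v := by
    ext x
    simp [cells]
  rw [this]
  exact MeasurableSet.biUnion (Set.to_countable _) fun v _ => cell_meas s v

/-- the multiplicity function of a family of tubes -/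
noncomputable def mul {d : ℕ} {ι : Type} [Fintype ι] (ℓ ρ : ℝ) (c e : ι → Sp d) (x : Sp d) :
    ℝ≥0∞ := ∑ i, (tube ℓ ρ (c i) (e i)).indicator 1 x

/-- weak type inequality for one level -/
theorem weak {n : ℕ} (hn : 0 < n) {ι : Type} [Fintype ι] {ℓ ρ s : ℝ} {R : ℕ} (c e : ι → Sp (n + 1))
    (𝒜 : Set (Fin (n + 1) → ℤ)) {Λ : ℝ} (hΛ : 0 ≤ Λ) {y : ℝ} (hy : 0 < y)
    (h1 : ∀ i, volume (tube ℓ ρ (c i) (e i) ∩ cells s 𝒜) ^ (n + 1)
      ≤ ENNReal.ofReal Λ * volume (cells s 𝒜))
    (h2 : cells s 𝒜 ⊆ {x | ENNReal.ofReal y ≤ R * mul ℓ ρ c e x}) :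
    volume (cells s 𝒜) < ⊤ ∧
      (volume (cells s 𝒜)).toReal ^ n ≤ (R * Fintype.card ι / y) ^ (n + 1) * Λ := by
  set A := cells s 𝒜 with hA
  have hAm : MeasurableSet A := cells_meas s 𝒜
  have hsub : A ⊆ ⋃ i, tube ℓ ρ (c i) (e i) := by
    intro x hx
    have h3 := h2 hx
    by_contra hcon
    rw [Set.mem_iUnion] at hcon
    push Not at hcon
    have h4 : mul ℓ ρ c e x = 0 := by
      unfold mul
      refine Finset.sum_eq_zero fun i _ => ?_
      rw [Set.indicator_of_notMem (hcon i)]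
    rw [Set.mem_ofPred_eq, h4, mul_zero, nonpos_iff_eq_zero, ENNReal.ofReal_eq_zero] at h3
    linarith
  have hfin : volume A < ⊤ := by
    refine (measure_mono hsub).trans_lt ((measure_iUnion_fintype_le _ _).trans_lt ?_)
    exact ENNReal.sum_lt_top.2 fun i _ => tube_bdd _ _ _ _
  refine ⟨hfin, ?_⟩
  set a : ℝ := (volume A).toReal with ha
  have ha0 : 0 ≤ a := ENNReal.toReal_nonneg
  have hvA : volume A = ENNReal.ofReal a := (ENNReal.ofReal_toReal hfin.ne).symm
  set t : ι → ℝ := fun i => (volume (tube ℓ ρ (c i) (e i) ∩ A)).toReal with ht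
  have hti : ∀ i, volume (tube ℓ ρ (c i) (e i) ∩ A) = ENNReal.ofReal (t i) := by
    intro i
    refine (ENNReal.ofReal_toReal ?_).symm
    exact ((measure_mono Set.inter_subset_right).trans_lt hfin).ne
  have ht0 : ∀ i, 0 ≤ t i := fun i => ENNReal.toReal_nonneg
  set B : ℝ := (Λ * a) ^ (((n + 1 : ℕ) : ℝ)⁻¹) with hB
  have hB0 : 0 ≤ B := by positivity
  have hBp : B ^ (n + 1) = Λ * a := Real.rpow_inv_natCast_pow (by positivity) (by omega)
  have htB : ∀ i, t i ≤ B := by
    intro i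
    have h3 := h1 i
    rw [hti, hvA, ← ENNReal.ofReal_pow (ht0 i), ← ENNReal.ofReal_mul hΛ,
      ENNReal.ofReal_le_ofReal_iff (by positivity), ← hBp] at h3
    exact le_of_pow_le_pow_left₀ (by omega) hB0 h3
  -- integration of the multiplicity
  have h3 : ENNReal.ofReal y * volume A ≤ R * ∑ i, volume (tube ℓ ρ (c i) (e i) ∩ A) := by
    calc ENNReal.ofReal y * volume A = ∫⁻ _ in A, ENNReal.ofReal y := by
          rw [setLIntegral_const]
      _ ≤ ∫⁻ x in A, R * mul ℓ ρ c e x := setLIntegral_mono' hAm fun x hx => h2 hx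
      _ = R * ∑ i, volume (tube ℓ ρ (c i) (e i) ∩ A) := by
          have hm : ∀ i ∈ (Finset.univ : Finset ι), Measurable
              (fun x => (tube ℓ ρ (c i) (e i)).indicator (1 : Sp (n + 1) → ℝ≥0∞) x) :=
            fun i _ => measurable_one.indicator (tube_meas _ _ _ _)
          unfold mul
          rw [lintegral_const_mul' _ _ (by simp), lintegral_finsetSum _ hm]
          congr 1
          refine Finset.sum_congr rfl fun i _ => ?_
          rw [lintegral_indicator_one (tube_meas _ _ _ _),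
            Measure.restrict_apply (tube_meas _ _ _ _)]
  have h4 : y * a ≤ R * Fintype.card ι * B := by
    have h5 : ENNReal.ofReal (y * a) ≤ ENNReal.ofReal (R * ∑ i, t i) := by
      rw [ENNReal.ofReal_mul hy.le, ← hvA, ENNReal.ofReal_mul (by positivity),
        ENNReal.ofReal_natCast, ENNReal.ofReal_sum_of_nonneg fun i _ => ht0 i]
      refine h3.trans (le_of_eq ?_)
      congr 1
      exact Finset.sum_congr rfl fun i _ => hti i
    rw [ENNReal.ofReal_le_ofReal_iff (mul_nonneg (by positivity)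
      (Finset.sum_nonneg fun i _ => ht0 i))] at h5
    refine h5.trans ?_
    rw [mul_assoc]
    refine mul_le_mul_of_nonneg_left ?_ (by positivity)
    calc ∑ i, t i ≤ ∑ _i : ι, B := Finset.sum_le_sum fun i _ => htB i
      _ = Fintype.card ι * B := by simp
  rcases ha0.eq_or_lt with h0 | h0
  · rw [← h0, zero_pow hn.ne']
    positivity
  · have h6 : (y * a) ^ (n + 1) ≤ (R * Fintype.card ι) ^ (n + 1) * (Λ * a) := by
      calc (y * a) ^ (n + 1) ≤ (R * Fintype.card ι * B) ^ (n + 1) :=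
            pow_le_pow_left₀ (by positivity) h4 _
        _ = _ := by rw [mul_pow, hBp]
    rw [div_pow, div_mul_eq_mul_div, le_div_iff₀ (by positivity)]
    have h7 : a * (a ^ n * y ^ (n + 1)) ≤ a * ((R * Fintype.card ι) ^ (n + 1) * Λ) := by
      calc a * (a ^ n * y ^ (n + 1)) = (y * a) ^ (n + 1) := by ring
        _ ≤ _ := h6
        _ = _ := by ring
    exact le_of_mul_le_mul_left h7 h0

end Q85.ZE
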