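import Mathlib
import Pool.Agent.Q85.ZE.G

set_option autoImplicit false

/-!
# From weak type to strong type
-/

namespace Q85.ZE

open Finset MeasureTheory
open scoped ENNReal

open scoped Classical in
theorem mul_eq {d : ℕ} {ι : Type} [Fintype ι] (ℓ ρ : ℝ) (c e : ι → Sp d) (x : Sp d) :
    mul ℓ ρ c e x = ((Finset.univ.filter fun i => x ∈ tube ℓ ρ (c i) (e i)).card : ℝ≥0∞) := by
  unfold mul
  simp [Set.indicator_apply, Finset.sum_ite]

/-- a geometric sum -/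
theorem geo {r : ℝ} (hr : 1 < r) (k : ℕ) :
    ∑ i ∈ Finset.range (k + 1), r ^ i ≤ r / (r - 1) * r ^ k := by
  rw [geom_sum_eq hr.ne', div_mul_eq_mul_div]
  refine div_le_div_of_nonneg_right ?_ (by linarith)
  rw [pow_succ]
  linarith [pow_pos (by linarith : 0 < r) k]

/-- the constant in the strong type inequality -/
noncomputable def Cs (n R : ℕ) (p : ℝ) : ℝ :=
  (2:ℝ) ^ p * (R:ℝ) ^ (((n + 1 : ℕ) : ℝ) / n) *
    ((2:ℝ) ^ (p - ((n + 1 : ℕ) : ℝ) / n) / ((2:ℝ) ^ (p - ((n + 1 : ℕ) : ℝ) / n) - 1))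

theorem strong {n : ℕ} (hn : 0 < n) {ι : Type} [Fintype ι] {ℓ ρ : ℝ} {R : ℕ}
    (c e : ι → Sp (n + 1)) {Λ : ℝ} (hΛ : 0 ≤ Λ) {p : ℝ} (hp : ((n + 1 : ℕ) : ℝ) / n < p)
    (A : ℕ → Set (Sp (n + 1))) (hA : ∀ k, MeasurableSet (A k)) (hfin : ∀ k, volume (A k) < ⊤)
    (h1 : ∀ k, (volume (A k)).toReal ^ n ≤ (R * Fintype.card ι / (2:ℝ) ^ k) ^ (n + 1) * Λ)
    (h2 : ∀ k, {x | (2:ℝ≥0∞) ^ k ≤ mul ℓ ρ c e x} ⊆ A k) :
    ∫⁻ x, mul ℓ ρ c e x ^ p ≤
      ENNReal.ofReal (Cs n R p * (Fintype.card ι : ℝ) ^ p * Λ ^ ((n:ℝ)⁻¹)) := by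
  classical
  have hnr : (0:ℝ) < n := by exact_mod_cast hn
  have hp0 : 0 < p := lt_trans (by positivity) hp
  set m := Fintype.card ι with hm
  set β : ℝ := p - ((n + 1 : ℕ) : ℝ) / n with hβ
  have hβ0 : 0 < β := by linarith
  set r : ℝ := (2:ℝ) ^ β with hr
  have hr1 : 1 < r := Real.one_lt_rpow (by norm_num) hβ0
  rcases Nat.eq_zero_or_pos m with hm0 | hm0
  · have hι : IsEmpty ι := Fintype.card_eq_zero_iff.1 hm0
    have h3 : ∀ x, mul ℓ ρ c e x ^ p = 0 := by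
      intro x
      unfold mul
      rw [Finset.univ_eq_empty, Finset.sum_empty, ENNReal.zero_rpow_of_pos hp0]
    rw [lintegral_congr h3, lintegral_zero]
    exact zero_le
  have hmr : (0:ℝ) < m := by exact_mod_cast hm0
  set k₀ := Nat.log 2 m with hk₀
  -- pointwise bound
  have hpt : ∀ x, mul ℓ ρ c e x ^ p ≤
      ∑ k ∈ Finset.range (k₀ + 1), (A k).indicator (fun _ => ENNReal.ofReal ((2:ℝ) ^ ((k + 1) * p))) x := by
    intro x
    rw [mul_eq]
    set j := (Finset.univ.filter fun i => x ∈ tube ℓ ρ (c i) (e i)).card with hj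
    rcases Nat.eq_zero_or_pos j with hj0 | hj0
    · rw [hj0, Nat.cast_zero, ENNReal.zero_rpow_of_pos hp0]
      exact zero_le
    have hjm : j ≤ m := by
      rw [hj, hm]
      exact Finset.card_le_univ _
    have hk1 : Nat.log 2 j ≤ k₀ := Nat.log_mono_right hjm
    have hk2 : 2 ^ Nat.log 2 j ≤ j := Nat.pow_log_le_self 2 hj0.ne'
    have hk3 : j < 2 ^ (Nat.log 2 j + 1) := Nat.lt_pow_succ_log_self (by norm_num) j
    have hxA : x ∈ A (Nat.log 2 j) := by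
      refine h2 _ ?_
      rw [Set.mem_ofPred_eq, mul_eq, ← hj]
      exact_mod_cast hk2
    have h4 : ((j:ℕ) : ℝ≥0∞) ^ p ≤ ENNReal.ofReal ((2:ℝ) ^ (((Nat.log 2 j : ℕ) + 1) * p)) := by
      rw [← ENNReal.ofReal_natCast, ENNReal.ofReal_rpow_of_nonneg (by positivity) hp0.le]
      apply ENNReal.ofReal_le_ofReal
      rw [Real.rpow_mul (by norm_num)]
      refine Real.rpow_le_rpow (by positivity) ?_ hp0.le
      have : ((2:ℝ) ^ (((Nat.log 2 j : ℕ) : ℝ) + 1)) = (2:ℝ) ^ (Nat.log 2 j + 1) := by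
        rw [← Real.rpow_natCast]
        push_cast
        rfl
      rw [this]
      exact_mod_cast hk3.le
    refine h4.trans ?_
    have h5 := Finset.single_le_sum (f := fun k => (A k).indicator
      (fun _ => ENNReal.ofReal ((2:ℝ) ^ (((k:ℕ) + 1) * p))) x)
      (fun k _ => zero_le) (Finset.mem_range.2 (Nat.lt_succ_of_le hk1))
    refine le_trans (le_of_eq ?_) h5
    rw [Set.indicator_of_mem hxA]
  have hint : ∫⁻ x, mul ℓ ρ c e x ^ p ≤
      ∑ k ∈ Finset.range (k₀ + 1), ENNReal.ofReal ((2:ℝ) ^ ((k + 1) * p)) * volume (A k) := by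
    refine (lintegral_mono hpt).trans (le_of_eq ?_)
    rw [lintegral_finsetSum _ fun k _ => measurable_const.indicator (hA k)]
    refine Finset.sum_congr rfl fun k _ => ?_
    rw [lintegral_indicator_const (hA k)]
  refine hint.trans ?_
  -- the volumes
  have hvol : ∀ k, (volume (A k)).toReal ≤
      (R:ℝ) ^ (((n + 1 : ℕ) : ℝ) / n) * (m:ℝ) ^ (((n + 1 : ℕ) : ℝ) / n)
        * ((2:ℝ) ^ k) ^ (-(((n + 1 : ℕ) : ℝ) / n)) * Λ ^ ((n:ℝ)⁻¹) := by
    intro k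
    have h3 := h1 k
    have h4 := Real.rpow_le_rpow (by positivity) h3 (by positivity : (0:ℝ) ≤ (n:ℝ)⁻¹)
    rw [Real.pow_rpow_inv_natCast ENNReal.toReal_nonneg hn.ne'] at h4
    refine h4.trans (le_of_eq ?_)
    rw [Real.mul_rpow (by positivity) hΛ, ← Real.rpow_natCast, ← Real.rpow_mul (by positivity),
      Real.div_rpow (by positivity) (by positivity), Real.mul_rpow (by positivity) (by positivity),
      Real.rpow_neg (by positivity), ← div_eq_mul_inv]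
    simp only [div_eq_mul_inv]
  have hterm : ∀ k ∈ Finset.range (k₀ + 1),
      ENNReal.ofReal ((2:ℝ) ^ ((k + 1) * p)) * volume (A k) ≤
        ENNReal.ofReal ((2:ℝ) ^ p * (R:ℝ) ^ (((n + 1 : ℕ) : ℝ) / n)
          * (m:ℝ) ^ (((n + 1 : ℕ) : ℝ) / n) * Λ ^ ((n:ℝ)⁻¹) * r ^ k) := by
    intro k _
    have hvA : volume (A k) = ENNReal.ofReal (volume (A k)).toReal :=
      (ENNReal.ofReal_toReal (hfin k).ne).symm
    rw [hvA, ← ENNReal.ofReal_mul (by positivity)]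
    apply ENNReal.ofReal_le_ofReal
    refine (mul_le_mul_of_nonneg_left (hvol k) (by positivity)).trans (le_of_eq ?_)
    have e1 : (2:ℝ) ^ (((k:ℝ) + 1) * p) = (2:ℝ) ^ p * (2:ℝ) ^ ((k:ℝ) * p) := by
      rw [← Real.rpow_add (by norm_num)]
      congr 1
      ring
    have e2 : ((2:ℝ) ^ k) ^ (-(((n + 1 : ℕ) : ℝ) / n)) = (2:ℝ) ^ ((k:ℝ) * (-(((n + 1 : ℕ) : ℝ) / n))) := by
      rw [← Real.rpow_natCast, ← Real.rpow_mul (by norm_num)]
    have e3 : r ^ k = (2:ℝ) ^ ((k:ℝ) * p) * (2:ℝ) ^ ((k:ℝ) * (-(((n + 1 : ℕ) : ℝ) / n))) := by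
      rw [hr, ← Real.rpow_natCast, ← Real.rpow_mul (by norm_num), ← Real.rpow_add (by norm_num)]
      congr 1
      rw [hβ]
      ring
    rw [e1, e2, e3]
    ring
  refine (Finset.sum_le_sum hterm).trans ?_
  rw [← ENNReal.ofReal_sum_of_nonneg (fun k _ => by positivity)]
  apply ENNReal.ofReal_le_ofReal
  rw [← Finset.mul_sum]
  have h6 := geo hr1 k₀
  have h7 : r ^ k₀ ≤ (m:ℝ) ^ β := by
    have e3 : r ^ k₀ = ((2:ℝ) ^ k₀) ^ β := by
      rw [hr, ← Real.rpow_natCast, ← Real.rpow_mul (by norm_num), ← Real.rpow_natCast,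
        ← Real.rpow_mul (by norm_num), mul_comm]
    rw [e3]
    refine Real.rpow_le_rpow (by positivity) ?_ hβ0.le
    have : 2 ^ k₀ ≤ m := Nat.pow_log_le_self 2 hm0.ne'
    exact_mod_cast this
  have h8 : ∑ i ∈ Finset.range (k₀ + 1), r ^ i ≤ r / (r - 1) * (m:ℝ) ^ β := by
    refine h6.trans (mul_le_mul_of_nonneg_left h7 ?_)
    have : 0 < r - 1 := by linarith
    positivity
  refine (mul_le_mul_of_nonneg_left h8 (by positivity)).trans (le_of_eq ?_)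
  have h9 : (m:ℝ) ^ p = (m:ℝ) ^ (((n + 1 : ℕ) : ℝ) / n) * (m:ℝ) ^ β := by
    rw [← Real.rpow_add hmr]
    congr 1
    rw [hβ]
    ring
  rw [h9]
  unfold Cs
  ring

end Q85.ZE
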