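import Mathlib
import Pool.Agent.Q85.ZE.I

set_option autoImplicit false

/-!
# Choice of the parameters
-/

namespace Q85.ZE

open Finset MeasureTheory
open scoped ENNReal

/-- `e` is a unit vector, parallel to `(1, α)` with a slope `α ∈ [-L, L]^n` outside of `E` -/
def Admissible {n : ℕ} (L : ℕ) (E : Set (Fin n → ℝ)) (e : Sp (n + 1)) : Prop :=
  ‖e‖ = 1 ∧ ∃ α : Fin n → ℝ, (∀ l, |α l| ≤ L) ∧ α ∉ E ∧ ∀ l : Fin n, e l.succ = α l * e 0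

theorem side_eq {q J j : ℕ} (hq : 1 ≤ q) (hj : j ≤ J) :
    ((q ^ (J - j) : ℕ) : ℝ) * ((q:ℝ) ^ J)⁻¹ = ((q:ℝ) ^ j)⁻¹ := by
  have hqr : (0:ℝ) < q := by exact_mod_cast hq
  have : (q:ℝ) ^ J = (q:ℝ) ^ (J - j) * (q:ℝ) ^ j := by
    rw [← pow_add]
    congr 1
    omega
  rw [this]
  push_cast
  field_simp

theorem sum_eq (n : ℕ) : ∑ i ∈ Finset.range (n + 1), i = n * (n + 1) / 2 := by
  rw [Finset.sum_range_id, Nat.add_sub_cancel, Nat.mul_comm]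

theorem part_one (n L R : ℕ) (hR : 1 ≤ R) (J : ℕ) :
    ∃ C : ℝ, 0 < C ∧ ∀ q K : ℕ, 1 ≤ q → 1 ≤ K → ∃ E : Set (Fin n → ℝ), MeasurableSet E ∧
      volume E ≤ ENNReal.ofReal (C / (K:ℝ) ^ n) ∧
      ∀ (𝒜 : Set (Fin (n + 1) → ℤ)) (c e : Sp (n + 1)) (ℓ ρ : ℝ), Admissible L E e →
        ℓ ≤ R → ρ ≤ R * ((q:ℝ) ^ J)⁻¹ →
        volume (tube ℓ ρ c e ∩ cells ((q:ℝ) ^ J)⁻¹ 𝒜) ^ (n + 1) ≤
          ENNReal.ofReal (C * (q:ℝ) ^ (n * (n + 1) / 2) * (K:ℝ) ^ (n * J) *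
            (∏ j ∈ Finset.range J, (zoomNumber ((q:ℝ) ^ j)⁻¹ (tube ℓ ρ c e)
              (cells ((q:ℝ) ^ J)⁻¹ 𝒜) : ℝ)) * (((q:ℝ) ^ J)⁻¹) ^ (n * (n + 1))) *
            volume (cells ((q:ℝ) ^ J)⁻¹ 𝒜) := by
  set C : ℝ := (Mc n L R : ℝ) ^ (n + 1) * ((2 * L + 1 : ℕ) : ℝ) ^ (n * J)
    + (2 * (2 * L + 3)) ^ n with hC
  have hC1 : (Mc n L R : ℝ) ^ (n + 1) * ((2 * L + 1 : ℕ) : ℝ) ^ (n * J) ≤ C := by
    rw [hC]
    have : (0:ℝ) ≤ (2 * (2 * L + 3)) ^ n := by positivity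
    linarith
  have hC2 : ((2:ℝ) * (2 * L + 3)) ^ n ≤ C := by
    rw [hC]
    have : (0:ℝ) ≤ (Mc n L R : ℝ) ^ (n + 1) * ((2 * L + 1 : ℕ) : ℝ) ^ (n * J) := by positivity
    linarith
  have hC0 : 0 < C := lt_of_lt_of_le (by positivity) hC2
  refine ⟨C, hC0, fun q K hq hK => ⟨Exc n q K L, exc_meas n q K L, ?_, ?_⟩⟩
  · refine (exc_vol hq hK).trans (ENNReal.ofReal_le_ofReal ?_)
    exact div_le_div_of_nonneg_right hC2 (by positivity)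
  · rintro 𝒜 c e ℓ ρ ⟨he, α, hαL, hαE, hslope⟩ hℓ hρ
    have hgen : Gen q K α := by
      by_contra hcon
      exact hαE ⟨hαL, hcon⟩
    refine (one_tube hR hq hK rfl hℓ hρ c e he α hαL hslope hgen 𝒜).trans ?_
    refine mul_le_mul_left (ENNReal.ofReal_le_ofReal ?_) _
    have hprod : ∏ j ∈ Finset.range J, (zoomNumber ((q ^ (J - j) : ℕ) * ((q:ℝ) ^ J)⁻¹)
          (tube ℓ ρ c e) (cells ((q:ℝ) ^ J)⁻¹ 𝒜) : ℝ)
        = ∏ j ∈ Finset.range J, (zoomNumber ((q:ℝ) ^ j)⁻¹ (tube ℓ ρ c e)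
              (cells ((q:ℝ) ^ J)⁻¹ 𝒜) : ℝ) := by
      refine Finset.prod_congr rfl fun j hj => ?_
      rw [side_eq hq (Finset.mem_range.1 hj).le]
    rw [hprod, sum_eq]
    set Z := ∏ j ∈ Finset.range J, (zoomNumber ((q:ℝ) ^ j)⁻¹ (tube ℓ ρ c e)
              (cells ((q:ℝ) ^ J)⁻¹ 𝒜) : ℝ)
    have hZ : 0 ≤ Z := Finset.prod_nonneg fun j _ => by positivity
    have e1 : (Mc n L R : ℝ) ^ (n + 1) * ((q:ℝ) ^ (n * (n + 1) / 2)
          * ((((2 * L + 1) * K) ^ n : ℕ) : ℝ) ^ J * Z) * ((((q:ℝ) ^ J)⁻¹) ^ (n + 1)) ^ n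
        = ((Mc n L R : ℝ) ^ (n + 1) * ((2 * L + 1 : ℕ) : ℝ) ^ (n * J)) *
          ((q:ℝ) ^ (n * (n + 1) / 2) * (K:ℝ) ^ (n * J) * Z * (((q:ℝ) ^ J)⁻¹) ^ (n * (n + 1))) := by
      rw [Nat.cast_pow, Nat.cast_mul, ← pow_mul, mul_pow, ← pow_mul, Nat.mul_comm (n + 1) n]
      ring
    rw [e1]
    have e2 : C * (q:ℝ) ^ (n * (n + 1) / 2) * (K:ℝ) ^ (n * J) * Z
          * (((q:ℝ) ^ J)⁻¹) ^ (n * (n + 1))
        = C * ((q:ℝ) ^ (n * (n + 1) / 2) * (K:ℝ) ^ (n * J) * Z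
          * (((q:ℝ) ^ J)⁻¹) ^ (n * (n + 1))) := by ring
    rw [e2]
    exact mul_le_mul_of_nonneg_right hC1 (by positivity)

theorem part_two (n L R : ℕ) (hn : 1 ≤ n) (hR : 1 ≤ R) {ε p : ℝ} (hε : 0 < ε)
    (hp : ((n + 1 : ℕ) : ℝ) / n < p) :
    ∃ J : ℕ, 1 ≤ J ∧ ∃ κ h C : ℝ, 0 < κ ∧ 0 < h ∧ 0 < C ∧ ∀ q : ℕ, 1 ≤ q → ∀ δ : ℝ,
      δ = ((q:ℝ) ^ J)⁻¹ → ∃ E : Set (Fin n → ℝ), MeasurableSet E ∧
      volume E ≤ ENNReal.ofReal (C * δ ^ κ) ∧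
      (∀ (𝒜 : Set (Fin (n + 1) → ℤ)) (c e : Sp (n + 1)), Admissible L E e →
        (∀ j < J, (zoomNumber ((q:ℝ) ^ j)⁻¹ (tube R (R * δ) c e) (cells δ 𝒜) : ℝ) ≤ δ ^ (-h)) →
        volume (tube R (R * δ) c e ∩ cells δ 𝒜) ^ (n + 1) ≤
          ENNReal.ofReal (C * δ ^ (n * ((n:ℝ) + 1 - ε))) * volume (cells δ 𝒜)) ∧
      ∀ (ι : Type) [Fintype ι] (c e : ι → Sp (n + 1)), (∀ i, Admissible L E (e i)) →
      ∀ 𝒜 : ℕ → Set (Fin (n + 1) → ℤ),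
        (∀ k, {x | (2:ℝ≥0∞) ^ k ≤ mul (1 / 2) δ c e x} ⊆ cells δ (𝒜 k)) →
        (∀ k, cells δ (𝒜 k) ⊆ {x | (2:ℝ≥0∞) ^ k ≤ R * mul R (R * δ) c e x}) →
        (∀ k i, ∀ j < J, (zoomNumber ((q:ℝ) ^ j)⁻¹ (tube R (R * δ) (c i) (e i))
          (cells δ (𝒜 k)) : ℝ) ≤ δ ^ (-h)) →
        ∫⁻ x, mul (1 / 2) δ c e x ^ p ≤
          ENNReal.ofReal (C * (Fintype.card ι : ℝ) ^ p * δ ^ (n + 1 - ε)) := by
  have hnr : (0:ℝ) < n := by exact_mod_cast hn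
  set J : ℕ := ⌈3 * (n + 1) / (2 * ε)⌉₊ + 1 with hJ
  have hJ1 : 1 ≤ J := by omega
  have hJr : (0:ℝ) < J := by exact_mod_cast hJ1
  have hJ2 : 3 * (n + 1) / (2 * ε) ≤ J := by
    have := Nat.le_ceil (3 * ((n:ℝ) + 1) / (2 * ε))
    rw [hJ]
    push_cast
    linarith
  set η : ℝ := ε / 3 with hη
  have hη0 : 0 < η := by positivity
  set h : ℝ := n * ε / (3 * J) with hh
  have hh0 : 0 < h := by positivity
  obtain ⟨C₁, hC₁, H₁⟩ := part_one n L R hR J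
  set C₂ : ℝ := (C₁ * 2 ^ (n * J)) ^ ((n:ℝ)⁻¹) with hC₂
  have hC₂0 : 0 < C₂ := by positivity
  refine ⟨J, hJ1, η * n / J, h, C₁ + C₁ * 2 ^ (n * J) + |Cs n R p| * C₂, by positivity, hh0,
    by positivity, ?_⟩
  intro q hq δ hδ
  have hqr : (1:ℝ) ≤ q := by exact_mod_cast hq
  have hq0 : (0:ℝ) < q := by linarith
  have hδ0 : 0 < δ := by rw [hδ]; positivity
  have hδq : ∀ x : ℝ, δ ^ x = (q:ℝ) ^ (-(J * x)) := by
    intro x
    rw [hδ, ← Real.rpow_natCast, ← Real.rpow_neg hq0.le, ← Real.rpow_mul hq0.le]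
    congr 1
    ring
  set K : ℕ := ⌈(q:ℝ) ^ η⌉₊ with hK
  have hqη : 1 ≤ (q:ℝ) ^ η := Real.one_le_rpow hqr hη0.le
  have hK1 : (q:ℝ) ^ η ≤ K := Nat.le_ceil _
  have hK2 : (K:ℝ) ≤ 2 * (q:ℝ) ^ η := by
    have := Nat.ceil_lt_add_one (by positivity : 0 ≤ (q:ℝ) ^ η)
    rw [← hK] at this
    linarith
  have hK0 : 1 ≤ K := by
    have : (1:ℝ) ≤ K := hqη.trans hK1
    exact_mod_cast this
  obtain ⟨E, hEm, hEv, HE⟩ := H₁ q K hq hK0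
  set Λ : ℝ := C₁ * (q:ℝ) ^ (n * (n + 1) / 2) * (K:ℝ) ^ (n * J) * (δ ^ (-h)) ^ J *
        δ ^ (n * (n + 1)) with hΛ
  have hL0 : 0 ≤ Λ := by positivity
  have hone : ∀ (𝒜 : Set (Fin (n + 1) → ℤ)) (c e : Sp (n + 1)), Admissible L E e →
      (∀ j < J, (zoomNumber ((q:ℝ) ^ j)⁻¹ (tube R (R * δ) c e) (cells δ 𝒜) : ℝ) ≤ δ ^ (-h)) →
      volume (tube R (R * δ) c e ∩ cells δ 𝒜) ^ (n + 1)
        ≤ ENNReal.ofReal Λ * volume (cells δ 𝒜) := by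
    intro 𝒜 c e hadm hA3
    have h1 := HE 𝒜 c e R (R * δ) hadm le_rfl (by rw [hδ])
    rw [← hδ] at h1
    refine h1.trans (mul_le_mul_left (ENNReal.ofReal_le_ofReal ?_) _)
    rw [hΛ]
    refine mul_le_mul_of_nonneg_right (mul_le_mul_of_nonneg_left ?_ (by positivity))
      (by positivity)
    calc ∏ j ∈ Finset.range J, (zoomNumber ((q:ℝ) ^ j)⁻¹ (tube R (R * δ) c e)
          (cells δ 𝒜) : ℝ) ≤ ∏ _j ∈ Finset.range J, δ ^ (-h) :=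
          Finset.prod_le_prod (fun j _ => by positivity)
            (fun j hj => hA3 j (Finset.mem_range.1 hj))
      _ = (δ ^ (-h)) ^ J := by rw [Finset.prod_const, Finset.card_range]
  have hΛ1 : Λ ≤ (C₁ * 2 ^ (n * J)) * (q:ℝ) ^ (-(J * (n * ((n:ℝ) + 1 - ε)))) := by
        have a1 : (q:ℝ) ^ (n * (n + 1) / 2) = (q:ℝ) ^ ((n:ℝ) * (n + 1) / 2) := by
          rw [← Real.rpow_natCast]
          congr 1
          have : 2 ∣ n * (n + 1) := (Nat.even_mul_succ_self n).two_dvd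
          rw [Nat.cast_div this (by norm_num)]
          push_cast
          ring
        have a2 : (K:ℝ) ^ (n * J) ≤ 2 ^ (n * J) * (q:ℝ) ^ (η * (n * J)) := by
          calc (K:ℝ) ^ (n * J) ≤ (2 * (q:ℝ) ^ η) ^ (n * J) :=
                pow_le_pow_left₀ (by positivity) hK2 _
            _ = 2 ^ (n * J) * (q:ℝ) ^ (η * (n * J)) := by
                rw [mul_pow, ← Real.rpow_natCast ((q:ℝ) ^ η), ← Real.rpow_mul hq0.le]
                push_cast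
                rfl
        have a3 : (δ ^ (-h)) ^ J = (q:ℝ) ^ (J * h * J) := by
          rw [hδq, ← Real.rpow_natCast, ← Real.rpow_mul hq0.le]
          congr 1
          ring
        have a4 : δ ^ (n * (n + 1)) = (q:ℝ) ^ (-(J * ((n:ℝ) * (n + 1)))) := by
          rw [← hδq, ← Real.rpow_natCast]
          push_cast
          rfl
        rw [hΛ, a1, a3, a4]
        calc C₁ * (q:ℝ) ^ ((n:ℝ) * (n + 1) / 2) * (K:ℝ) ^ (n * J) * (q:ℝ) ^ (J * h * J) *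
              (q:ℝ) ^ (-(J * ((n:ℝ) * (n + 1))))
            ≤ C₁ * (q:ℝ) ^ ((n:ℝ) * (n + 1) / 2) * (2 ^ (n * J) * (q:ℝ) ^ (η * (n * J)))
              * (q:ℝ) ^ (J * h * J) * (q:ℝ) ^ (-(J * ((n:ℝ) * (n + 1)))) := by
              gcongr
          _ = (C₁ * 2 ^ (n * J)) * ((q:ℝ) ^ ((n:ℝ) * (n + 1) / 2) * (q:ℝ) ^ (η * (n * J))
              * (q:ℝ) ^ (J * h * J) * (q:ℝ) ^ (-(J * ((n:ℝ) * (n + 1))))) := by ring
          _ = (C₁ * 2 ^ (n * J)) * (q:ℝ) ^ ((n:ℝ) * (n + 1) / 2 + η * (n * J) + J * h * J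
              + (-(J * ((n:ℝ) * (n + 1))))) := by
              rw [Real.rpow_add hq0, Real.rpow_add hq0, Real.rpow_add hq0]
          _ ≤ (C₁ * 2 ^ (n * J)) * (q:ℝ) ^ (-(J * (n * ((n:ℝ) + 1 - ε)))) := by
              refine mul_le_mul_of_nonneg_left (Real.rpow_le_rpow_of_exponent_le hqr ?_)
                (by positivity)
              have b1 : J * h * J = n * ε * J / 3 := by
                rw [hh]
                field_simp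
              have b2 : 3 * ((n:ℝ) + 1) / 2 ≤ ε * J := by
                rw [div_le_iff₀ (by positivity)] at hJ2
                linarith
              have b3 := mul_le_mul_of_nonneg_left b2 hnr.le
              rw [b1, hη]
              nlinarith
  refine ⟨E, hEm, ?_, ?_, ?_⟩
  · refine hEv.trans (ENNReal.ofReal_le_ofReal ?_)
    have h1 : C₁ / (K:ℝ) ^ n ≤ C₁ * δ ^ (η * n / J) := by
      rw [hδq, div_eq_mul_inv]
      refine mul_le_mul_of_nonneg_left ?_ hC₁.le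
      have h2 : (q:ℝ) ^ (-(J * (η * n / J))) = (((q:ℝ) ^ η) ^ n)⁻¹ := by
        rw [← Real.rpow_natCast, ← Real.rpow_mul hq0.le, ← Real.rpow_neg hq0.le]
        congr 1
        field_simp
      rw [h2]
      exact inv_anti₀ (by positivity) (pow_le_pow_left₀ (by positivity) hK1 n)
    refine h1.trans (mul_le_mul_of_nonneg_right ?_ (by positivity))
    have : 0 ≤ C₁ * 2 ^ (n * J) + |Cs n R p| * C₂ := by positivity
    linarith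
  · intro 𝒜 c e hadm hA3
    refine (hone 𝒜 c e hadm hA3).trans (mul_le_mul_left (ENNReal.ofReal_le_ofReal ?_) _)
    rw [hδq]
    refine hΛ1.trans (mul_le_mul_of_nonneg_right ?_ (by positivity))
    have : 0 ≤ C₁ + |Cs n R p| * C₂ := by positivity
    linarith
  · intro ι _ c e hadm 𝒜 hA1 hA2 hA3
    have hweak := fun k => weak (by omega : 0 < n) c e (𝒜 k) hL0 (y := (2:ℝ) ^ k) (by positivity)
      (fun i => hone (𝒜 k) (c i) (e i) (hadm i) (hA3 k i)) (by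
        have h1 : ENNReal.ofReal ((2:ℝ) ^ k) = (2:ℝ≥0∞) ^ k := by
          rw [ENNReal.ofReal_pow (by norm_num), ENNReal.ofReal_ofNat]
        rw [h1]
        exact hA2 k)
    have hstr := strong (by omega : 0 < n) (ℓ := 1 / 2) (ρ := δ) c e hL0 hp
      (fun k => cells δ (𝒜 k)) (fun k => cells_meas δ _) (fun k => (hweak k).1)
      (fun k => (hweak k).2) hA1
    refine hstr.trans (ENNReal.ofReal_le_ofReal ?_)
    have hΛb : Λ ^ ((n:ℝ)⁻¹) ≤ C₂ * δ ^ ((n:ℝ) + 1 - ε) := by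
      calc Λ ^ ((n:ℝ)⁻¹) ≤ ((C₁ * 2 ^ (n * J)) * (q:ℝ) ^ (-(J * (n * ((n:ℝ) + 1 - ε))))) ^
            ((n:ℝ)⁻¹) := Real.rpow_le_rpow hL0 hΛ1 (by positivity)
        _ = C₂ * δ ^ ((n:ℝ) + 1 - ε) := by
            rw [Real.mul_rpow (by positivity) (by positivity), ← Real.rpow_mul hq0.le, hδq]
            congr 2
            field_simp
    have hcs : Cs n R p ≤ |Cs n R p| := le_abs_self _
    calc Cs n R p * (Fintype.card ι : ℝ) ^ p * Λ ^ ((n:ℝ)⁻¹)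
        ≤ |Cs n R p| * (Fintype.card ι : ℝ) ^ p * (C₂ * δ ^ ((n:ℝ) + 1 - ε)) := by
          gcongr
      _ = (|Cs n R p| * C₂) * (Fintype.card ι : ℝ) ^ p * δ ^ ((n:ℝ) + 1 - ε) := by ring
      _ ≤ (C₁ + C₁ * 2 ^ (n * J) + |Cs n R p| * C₂) * (Fintype.card ι : ℝ) ^ p
            * δ ^ ((n:ℝ) + 1 - ε) := by
          have : 0 ≤ C₁ + C₁ * 2 ^ (n * J) := by positivity
          gcongr
          linarith

end Q85.ZE
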